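import Pool.Agent.N99.Cusp.Main2

set_option autoImplicit false

/-!
DG Morita theory: the main theorem.
-/

universe u v w v' w'

open CategoryTheory Pool.Agent.N212.DG CochainComplex CochainComplex.HomComplex DerivedCategory

open scoped ZeroObject

namespace Pool.Agent.N99.Cusp

/-- a full DG subcategory -/
def Full {k : Type u} [Field k] (D : DGCat.{u, v, w} k) (Φ : D.Obj → Prop) :
    DGCat.{u, v, w} k where
  Obj := {X // Φ X}
  Hom X Y n := D.Hom X.1 Y.1 n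
  d p q h := D.d p q h
  comp h := D.comp h
  one X := D.one X.1
  one_comp f := D.one_comp f
  comp_one f := D.comp_one f
  assoc h₁ h₂ h₃ h₄ f g h := D.assoc h₁ h₂ h₃ h₄ f g h
  d_d h₁ h₂ f := D.d_d h₁ h₂ f
  d_comp h hp hq hr h₁ h₂ f g := D.d_comp h hp hq hr h₁ h₂ f g

variable {k : Type u} [Field k] {C : Type v} [Category.{w} C] [Abelian C]
    [Linear k C] [HasDerivedCategory.{w'} C] {R : DGAlg.{u, w} k} {K : CochainComplex C ℤ}
    (ρ : Action R K) (T : ObjectProperty (DerivedCategory C))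

/-- the projection to the perfect modules -/
noncomputable def toPerf : DGFun (Full (Glue (HK (k := k) ρ)) (Good T)) (PerfDG R) where
  obj X := ⟨X.1.P, X.2.perf⟩
  map := { toFun := fun f => f.1, map_add' := fun _ _ => rfl, map_smul' := fun _ _ => rfl }
  map_d _ _ := rfl
  map_comp _ _ _ := rfl
  map_one _ := rfl

/-- the projection to the K-injective complexes -/
noncomputable def toInj : DGFun (Full (Glue (HK (k := k) ρ)) (Good T)) (InjDG k C T) where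
  obj X := ⟨X.1.J.1, X.1.J.2.1, X.2.cls⟩
  map := { toFun := fun f => f.2.1, map_add' := fun _ _ => rfl, map_smul' := fun _ _ => rfl }
  map_d _ _ := rfl
  map_comp _ _ _ := rfl
  map_one _ := rfl

lemma toPerf_quasiEquiv [Limits.HasCountableProducts C] [T.IsStableUnderRetracts]
    [T.IsTriangulated]
    (X₀ : GObj (HK (k := k) ρ)) (h₀ : Good T X₀) (hP : X₀.P = free R) :
    (toPerf ρ T).IsQuasiEquiv where
  surj X Y p q r h₁ h₂ z hz := by
    obtain ⟨f, hf, hfz⟩ := lift_M (X := X.1) (X' := Y.1) (mod_zero R) X.2.left h₂ z hz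
    exact ⟨f, 0, hf, hfz.trans (by rw [map_zero, add_zero])⟩
  inj X Y p q r h₁ h₂ f hf b hb := by
    obtain ⟨f₀, hf₀, -⟩ := inj_M (X := X.1) (X' := Y.1) (mod_zero R) X.2.left h₁ h₂ f hf b hb.symm
    exact ⟨f₀, hf₀.symm⟩
  ess := by
    rintro ⟨P, hP'⟩
    obtain ⟨X, hX, rfl⟩ := exists_good X₀ h₀ hP P hP'
    refine ⟨⟨X, hX⟩, (PerfDG R).one _, (PerfDG R).one _, 0, 0, d_one _ _, d_one _ _, ?_, ?_⟩
    · rw [map_zero, add_zero]; exact (PerfDG R).one_comp _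
    · rw [map_zero, add_zero]; exact (PerfDG R).one_comp _

lemma toInj_quasiEquiv [Limits.HasCountableProducts C] {I : CochainComplex C ℤ}
    (hT : T = (ObjectProperty.ofObj fun _ : Unit => Q.obj I).triangEnvelope)
    [T.IsStableUnderRetracts] [T.IsTriangulated]
    (X₀ : GObj (HK (k := k) ρ)) (h₀ : Good T X₀) (hJ : X₀.J.1 = I) :
    (toInj ρ T).IsQuasiEquiv where
  surj X Y p q r h₁ h₂ z hz := by
    obtain ⟨f, hf, hfz⟩ := lift_B (X := X.1) (X' := Y.1) inj_zero X.2.perf Y.2.right h₂ z hz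
    exact ⟨f, 0, hf, hfz.trans (by rw [map_zero, add_zero])⟩
  inj X Y p q r h₁ h₂ f hf b hb := by
    obtain ⟨f₀, hf₀, -⟩ := inj_B (X := X.1) (X' := Y.1) inj_zero X.2.perf Y.2.right h₁ h₂ f hf b
      hb.symm
    exact ⟨f₀, hf₀.symm⟩
  ess := by
    rintro ⟨J, hJ', hJT⟩
    have h1 : Psi ρ T (Q.obj J) := by
      have h2 := hJT
      rw [hT] at h2
      exact envelope_le ρ T (X₀.J.2.1) X₀ h₀ rfl _ (hJ ▸ h2)
    obtain ⟨Z, hZ, ⟨e⟩⟩ := h1
    have hZ1 := Z.J.2.1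
    obtain ⟨φ, hφ⟩ := Q_surj e.inv
    obtain ⟨ψ, hψ⟩ := Q_surj e.hom
    obtain ⟨s, hs⟩ := Q_inj (φ := φ ≫ ψ) (ψ := 𝟙 _) (by
      rw [Q.map_comp, hφ, hψ, e.inv_hom_id, Q.map_id])
    obtain ⟨t, ht⟩ := Q_inj (φ := ψ ≫ φ) (ψ := 𝟙 _) (by
      rw [Q.map_comp, hφ, hψ, e.hom_inv_id, Q.map_id])
    refine ⟨⟨Z, hZ⟩, (Cochain.ofHom φ : Cochain Z.J.1 J 0), (Cochain.ofHom ψ : Cochain J Z.J.1 0),
      s, t, δ_ofHom _, δ_ofHom _, ?_, ?_⟩
    · change (Cochain.ofHom φ).comp (Cochain.ofHom ψ) (add_zero 0) =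
        Cochain.ofHom (𝟙 Z.J.1) + δ (-1) 0 s
      rw [← Cochain.ofHom_comp, hs]
    · change (Cochain.ofHom ψ).comp (Cochain.ofHom φ) (add_zero 0) =
        Cochain.ofHom (𝟙 J) + δ (-1) 0 t
      rw [← Cochain.ofHom_comp, ht]

end Pool.Agent.N99.Cusp

namespace Pool.Agent.N99

open Cusp

theorem stmMorita : Pool.Agent.N212.DG.StmMorita.{u, v, w, w'} := by
  intro k _ C _ _ _ _ _ R K I ρ hI κ _ hs hi
  have h₀ : Good (ObjectProperty.ofObj fun _ : Unit => Q.obj I).triangEnvelope (X0 ρ hI κ) :=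
    ⟨X0_left ρ hI κ, X0_right ρ hI κ hs hi, IsPerf.free,
      ObjectProperty.le_triangEnvelope _ _ (ObjectProperty.ofObj_apply (fun _ : Unit => Q.obj I) ())⟩
  exact ⟨_, toInj ρ _, toPerf ρ _, toInj_quasiEquiv ρ _ rfl _ h₀ rfl,
    toPerf_quasiEquiv ρ _ _ h₀ rfl⟩

end Pool.Agent.N99
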