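import Pool.Agent.N212.DG.Defs

set_option autoImplicit false

/-!
Abstract DG categories: shifts, cones, orthogonality.
-/

universe u v w v' w'

open Pool.Agent.N212.DG

namespace Pool.Agent.N99.Cusp

variable {k : Type u} [Field k]

section

variable (D : DGCat.{u, v, w} k)

lemma units_comp {X Y Z : D.Obj} {p q r : ℤ} (h : p + q = r) (c : ℤˣ) (f : D.Hom X Y p)
    (g : D.Hom Y Z q) : D.comp h (c • f) g = c • D.comp h f g := by
  rcases Int.units_eq_one_or c with rfl | rfl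
  · simp
  · simp

lemma comp_units {X Y Z : D.Obj} {p q r : ℤ} (h : p + q = r) (c : ℤˣ) (f : D.Hom X Y p)
    (g : D.Hom Y Z q) : D.comp h f (c • g) = c • D.comp h f g := by
  rcases Int.units_eq_one_or c with rfl | rfl
  · simp
  · simp

lemma d_units {X Y : D.Obj} {p q : ℤ} (h : p + 1 = q) (c : ℤˣ) (f : D.Hom X Y p) :
    D.d p q h (c • f) = c • D.d p q h f := by
  rcases Int.units_eq_one_or c with rfl | rfl
  · simp
  · simp

/-- composition with a closed morphism on the right -/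
lemma d_comp_closed {X Y Z : D.Obj} {p q r p' q' r' : ℤ} (h : p + q = r) (hp : p + 1 = p')
    (hq : q + 1 = q') (hr : r + 1 = r') (h₂ : p' + q = r')
    (f : D.Hom X Y p) (g : D.Hom Y Z q) (hg : D.d q q' hq g = 0) :
    D.d r r' hr (D.comp h f g) = q.negOnePow • D.comp h₂ (D.d p p' hp f) g := by
  rw [D.d_comp h hp hq hr (by lia) h₂, hg, map_zero, zero_add]

/-- composition with a closed morphism on the left -/
lemma d_closed_comp {X Y Z : D.Obj} {p q r p' q' r' : ℤ} (h : p + q = r) (hp : p + 1 = p')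
    (hq : q + 1 = q') (hr : r + 1 = r') (h₁ : p + q' = r')
    (f : D.Hom X Y p) (g : D.Hom Y Z q) (hf : D.d p p' hp f = 0) :
    D.d r r' hr (D.comp h f g) = D.comp h₁ f (D.d q q' hq g) := by
  rw [D.d_comp h hp hq hr h₁ (by lia), hf, map_zero, LinearMap.zero_apply, smul_zero, add_zero]

lemma comp_closed {X Y Z : D.Obj} {p q r p' q' r' : ℤ} (h : p + q = r) (hp : p + 1 = p')
    (hq : q + 1 = q') (hr : r + 1 = r')
    (f : D.Hom X Y p) (g : D.Hom Y Z q) (hf : D.d p p' hp f = 0) (hg : D.d q q' hq g = 0) :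
    D.d r r' hr (D.comp h f g) = 0 := by
  rw [d_closed_comp D h hp hq hr (by lia) f g hf, hg, map_zero]

/-- `Y` is the shift of `X` by `n`. -/
structure ShiftData (X Y : D.Obj) (n m : ℤ) (h : m + n = 0) where
  /-- the map to the shift -/
  s : D.Hom X Y m
  /-- the map from the shift -/
  t : D.Hom Y X n
  ds : D.d m (m + 1) rfl s = 0
  dt : D.d n (n + 1) rfl t = 0
  st : D.comp h s t = D.one X
  ts : D.comp (by lia) t s = D.one Y

/-- `Y` is the cone of `f`. -/
structure ConeData {X Z : D.Obj} (f : D.Hom X Z 0) (Y : D.Obj) where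
  /-- first inclusion -/
  inl : D.Hom X Y (-1)
  /-- second inclusion -/
  inr : D.Hom Z Y 0
  /-- first projection -/
  fst : D.Hom Y X 1
  /-- second projection -/
  snd : D.Hom Y Z 0
  d_inr : D.d 0 1 (zero_add 1) inr = 0
  d_inl : D.d (-1) 0 (by lia) inl = D.comp (add_zero 0) f inr
  d_fst : D.d 1 2 (by lia) fst = 0
  d_snd : D.d 0 1 (zero_add 1) snd = - D.comp (add_zero 1) fst f
  inl_fst : D.comp (by lia) inl fst = D.one X
  inr_snd : D.comp (add_zero 0) inr snd = D.one Z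
  inl_snd : D.comp (add_zero (-1)) inl snd = 0
  inr_fst : D.comp (zero_add 1) inr fst = 0
  id : D.comp (by lia) fst inl + D.comp (add_zero 0) snd inr = D.one Y

/-- homotopy retract: `Y` is a homotopy retract of `X`. -/
structure RetData (X Y : D.Obj) where
  /-- the inclusion -/
  i : D.Hom Y X 0
  /-- the projection -/
  p : D.Hom X Y 0
  /-- the homotopy -/
  s : D.Hom Y Y (-1)
  di : D.d 0 1 (zero_add 1) i = 0
  dp : D.d 0 1 (zero_add 1) p = 0
  ip : D.comp (add_zero 0) i p = D.one Y + D.d (-1) 0 (by lia) s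

/-- every closed morphism from an object in `S` to `X` is exact -/
def ROrth (S : D.Obj → Prop) (X : D.Obj) : Prop :=
  ∀ Z, S Z → ∀ (p q r : ℤ) (h₁ : p + 1 = q) (h₂ : q + 1 = r) (z : D.Hom Z X q),
    D.d q r h₂ z = 0 → ∃ y : D.Hom Z X p, D.d p q h₁ y = z

/-- every closed morphism from `X` to an object in `S` is exact -/
def LOrth (S : D.Obj → Prop) (X : D.Obj) : Prop :=
  ∀ Z, S Z → ∀ (p q r : ℤ) (h₁ : p + 1 = q) (h₂ : q + 1 = r) (z : D.Hom X Z q),
    D.d q r h₂ z = 0 → ∃ y : D.Hom X Z p, D.d p q h₁ y = z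

variable {D} {S : D.Obj → Prop}

lemma comp_right_one {X Y Z W : D.Obj} {p q r s : ℤ} (h₁ : p + q = r) (h₂ : r + s = p)
    (h₃ : q + s = 0)
    (f : D.Hom X Y p) (g : D.Hom Y Z q) (h : D.Hom Z W s) (e : D.Hom Y W 0)
    (he : D.comp h₃ g h = e) :
    D.comp h₂ (D.comp h₁ f g) h = D.comp (add_zero p) f e := by
  rw [D.assoc h₁ h₃ h₂ (add_zero p), he]

lemma ROrth.shift {X Y : D.Obj} {n m : ℤ} {h : m + n = 0} (c : ShiftData D X Y n m h)
    (hX : ROrth D S X) : ROrth D S Y := by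
  intro Z hZ p q r h₁ h₂ z hz
  obtain ⟨y, hy⟩ := hX Z hZ (p + n) (q + n) (r + n) (by lia) (by lia) (D.comp rfl z c.t)
    (comp_closed D rfl h₂ rfl _ z c.t hz c.dt)
  refine ⟨m.negOnePow • D.comp (by lia) y c.s, ?_⟩
  rw [d_units, d_comp_closed D (p' := q + n) (by lia) (by lia) rfl h₁ (by lia) y c.s c.ds, hy,
    smul_smul, Int.units_mul_self, one_smul,
    comp_right_one (D := D) rfl (by lia) (by lia) z c.t c.s _ c.ts, D.comp_one]

lemma LOrth.shift {X Y : D.Obj} {n m : ℤ} {h : m + n = 0} (c : ShiftData D X Y n m h)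
    (hX : LOrth D S X) : LOrth D S Y := by
  intro Z hZ p q r h₁ h₂ z hz
  obtain ⟨y, hy⟩ := hX Z hZ (m + p) (m + q) (m + r) (by lia) (by lia) (D.comp rfl c.s z)
    (comp_closed D rfl rfl h₂ _ c.s z c.ds hz)
  refine ⟨D.comp (by lia) c.t y, ?_⟩
  rw [d_closed_comp D (q' := m + q) (by lia) rfl (by lia) h₁ (by lia) c.t y c.dt, hy,
    ← D.assoc (pq := 0) (by lia) rfl (by lia) (by lia), c.ts, D.one_comp]

lemma ROrth.retract {X Y : D.Obj} (c : RetData D X Y) (hX : ROrth D S X) : ROrth D S Y := by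
  intro Z hZ p q r h₁ h₂ z hz
  obtain ⟨y, hy⟩ := hX Z hZ p q r h₁ h₂ (D.comp (add_zero q) z c.i)
    (comp_closed D _ h₂ (zero_add 1) _ z c.i hz c.di)
  refine ⟨D.comp (add_zero p) y c.p - D.comp (by lia) z c.s, ?_⟩
  have e1 := D.comp_one z
  have e2 : D.one Y = D.comp (add_zero 0) c.i c.p - D.d (-1) 0 (by lia) c.s := by
    rw [c.ip]; abel
  rw [map_sub, d_comp_closed D (p' := q) (add_zero p) h₁ (zero_add 1) h₁ (add_zero q) y c.p c.dp,
    d_closed_comp D (p' := r) (q' := 0) (r' := q) _ h₂ (by lia) h₁ (add_zero q) z c.s hz, hy,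
    Int.negOnePow_zero, one_smul, D.assoc (add_zero q) (add_zero 0) (add_zero q) (add_zero q),
    ← map_sub, ← e2, e1]

lemma LOrth.retract {X Y : D.Obj} (c : RetData D X Y) (hX : LOrth D S X) : LOrth D S Y := by
  intro Z hZ p q r h₁ h₂ z hz
  obtain ⟨y, hy⟩ := hX Z hZ p q r h₁ h₂ (D.comp (zero_add q) c.p z)
    (comp_closed D _ (zero_add 1) h₂ _ c.p z c.dp hz)
  refine ⟨D.comp (zero_add p) c.i y - q.negOnePow • D.comp (by lia) c.s z, ?_⟩
  have e1 := D.one_comp z
  have e2 : D.one Y = D.comp (add_zero 0) c.i c.p - D.d (-1) 0 (by lia) c.s := by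
    rw [c.ip]; abel
  rw [map_sub, d_units, d_comp_closed D (p' := 0) (by lia) (by lia) h₂ h₁ (by lia) c.s z hz,
    d_closed_comp D (q' := q) (r' := q) _ (zero_add 1) h₁ h₁ (zero_add q) c.i y c.di, hy,
    smul_smul, Int.units_mul_self, one_smul,
    ← D.assoc (add_zero 0) (zero_add q) (zero_add q) (zero_add q),
    ← LinearMap.sub_apply, ← map_sub, ← e2, e1]

lemma ROrth.cone {X Z : D.Obj} {f : D.Hom X Z 0} {Y : D.Obj} (c : ConeData D f Y)
    (hf : D.d 0 1 (zero_add 1) f = 0)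
    (hX : ROrth D S X) (hZ : ROrth D S Z) : ROrth D S Y := by
  intro U hU p q r h₁ h₂ z hz
  obtain ⟨t, ht⟩ : ∃ t, r + 1 = t := ⟨_, rfl⟩
  obtain ⟨o, ho⟩ : ∃ o, o + 1 = p := ⟨p - 1, by lia⟩
  obtain ⟨y, hy⟩ := hX U hU q r t h₂ ht (D.comp h₂ z c.fst)
    (comp_closed D h₂ h₂ (by lia) _ z c.fst hz c.d_fst)
  -- `v = z snd + y f`
  have hv : D.d q r h₂ (D.comp (add_zero q) z c.snd + D.comp (add_zero q) y f) = 0 := by
    rw [map_add, d_closed_comp D (q' := 1) (r' := r) (add_zero q) h₂ (zero_add 1) h₂ h₂ z c.snd hz,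
      d_comp_closed D (p' := r) (r' := r) (add_zero q) h₂ (zero_add 1) h₂ (add_zero r) y f hf, hy,
      c.d_snd, Int.negOnePow_zero, one_smul, map_neg,
      D.assoc h₂ (add_zero 1) (add_zero r) h₂, neg_add_cancel]
  obtain ⟨x, hx⟩ := hZ U hU p q r h₁ h₂ _ hv
  refine ⟨D.comp (add_zero p) x c.inr - D.comp (by lia) y c.inl, ?_⟩
  rw [map_sub, d_comp_closed D (p' := q) (r' := q) (add_zero p) h₁ (zero_add 1) h₁ (add_zero q) x
    c.inr c.d_inr, hx, Int.negOnePow_zero, one_smul,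
    D.d_comp (q' := 0) (p' := r) (r' := q) (by lia) h₂ (by lia) h₁ (add_zero q) (by lia) y c.inl,
    hy, c.d_inl, Int.negOnePow_neg, Int.negOnePow_one, Units.neg_smul, one_smul,
    map_add, LinearMap.add_apply,
    D.assoc (add_zero q) (add_zero 0) (add_zero q) (add_zero q),
    D.assoc (add_zero q) (add_zero 0) (add_zero q) (add_zero q),
    D.assoc (qr := 0) h₂ (by lia) (by lia) (add_zero q)]
  have e := congrArg (fun m => D.comp (add_zero q) z m) c.id
  simp only [map_add, D.comp_one] at e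
  refine Eq.trans ?_ e
  abel

lemma LOrth.cone {X Z : D.Obj} {f : D.Hom X Z 0} {Y : D.Obj} (c : ConeData D f Y)
    (hf : D.d 0 1 (zero_add 1) f = 0)
    (hX : LOrth D S X) (hZ : LOrth D S Z) : LOrth D S Y := by
  intro U hU p q r h₁ h₂ z hz
  obtain ⟨o, ho⟩ : ∃ o, o + 1 = p := ⟨p - 1, by lia⟩
  obtain ⟨y, hy⟩ := hZ U hU p q r h₁ h₂ (D.comp (zero_add q) c.inr z)
    (comp_closed D _ (zero_add 1) h₂ _ c.inr z c.d_inr hz)
  have hpq : q.negOnePow = - p.negOnePow := by
    rw [← h₁, Int.negOnePow_add, Int.negOnePow_one]; simp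
  -- `v = inl z - (-1)^q f y`
  have hv : D.d p q h₁ (D.comp (by lia) c.inl z + p.negOnePow • D.comp (zero_add p) f y) = 0 := by
    rw [map_add, d_units, d_comp_closed D (p' := 0) (r' := q) (by lia) (by lia) h₂ h₁ (zero_add q)
      c.inl z hz, d_closed_comp D (q' := q) (r' := q) (zero_add p) (zero_add 1) h₁ h₁ (zero_add q)
      f y hf, hy, c.d_inl, D.assoc (add_zero 0) (zero_add q) (zero_add q) (zero_add q), hpq,
      Units.neg_smul, neg_add_cancel]
  obtain ⟨x, hx⟩ := hX U hU o p q ho h₁ _ hv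
  refine ⟨D.comp (zero_add p) c.snd y + D.comp (by lia) c.fst x, ?_⟩
  rw [map_add, D.d_comp (p' := 1) (q' := q) (r' := q) (zero_add p) (by lia) h₁ h₁ (zero_add q)
    (by lia) c.snd y, hy, c.d_snd,
    d_closed_comp D (q' := p) (r' := q) (by lia) (by lia) ho h₁ (by lia) c.fst x c.d_fst, hx,
    map_add, comp_units, map_neg, LinearMap.neg_apply, smul_neg,
    ← D.assoc (pq := 0) (by lia) (by lia) (zero_add q) (by lia) c.fst c.inl z,
    ← D.assoc (add_zero 0) (zero_add q) (zero_add q) (zero_add q) c.snd c.inr z,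
    ← D.assoc (add_zero 1) (zero_add p) (by lia) (by lia) c.fst f y]
  have e := congrArg (fun m => D.comp (zero_add q) m z) c.id
  simp only [map_add, LinearMap.add_apply, D.one_comp] at e
  refine Eq.trans ?_ e
  abel

end

end Pool.Agent.N99.Cusp
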