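import Pool.Agent.N99.Cusp.InjS

set_option autoImplicit false

/-!
The base triple.
-/

universe u v w v' w'

open CategoryTheory Pool.Agent.N212.DG CochainComplex CochainComplex.HomComplex

open scoped ZeroObject

namespace Pool.Agent.N99.Cusp

section

variable {k : Type u} [Field k] {R : DGAlg.{u, w} k}

/-- the morphism from the free module given by an element -/
def fr {N : DGMod.{u, w, w} R} {n : ℤ} (c : N.M n) : DGMod.Mor (free R) N n :=
  mk (free R) N n (fun p q h => N.act (by lia) c) (by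
    intro p r s q q' h h₁ h₂ h₃ m a
    exact (N.assoc _ _ _ _ c m a).symm)

lemma ev_fr {N : DGMod.{u, w, w} R} {n : ℤ} (c : N.M n) (p q : ℤ) (h : p + n = q)
    (a : R.A p) : ev (fr c) p q h a = N.act (by lia) c a := rfl

lemma ev_fr_one {N : DGMod.{u, w, w} R} {n : ℤ} (c : N.M n) (h : 0 + n = n) :
    ev (fr c) 0 n h R.one = c := N.act_one c

lemma eq_fr {N : DGMod.{u, w, w} R} {n : ℤ} (f : DGMod.Mor (free R) N n) :
    f = fr (ev f 0 n (zero_add n) R.one) := by
  apply ev_ext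
  intro p q h a
  have := ev_act f (zero_add n) (zero_add p) h (by lia) R.one a
  rw [ev_fr, ← this]
  exact congrArg _ (R.one_mul a).symm

lemma d_oneA (R : DGAlg.{u, w} k) : R.d 0 1 (zero_add 1) R.one = 0 := by
  have h := R.d_mul (add_zero 0) (zero_add 1) (zero_add 1) (zero_add 1) (zero_add 1)
    (add_zero 1) R.one R.one
  rw [R.one_mul, R.one_mul, R.mul_one, Int.negOnePow_zero, one_smul] at h
  exact (add_left_cancel ((add_zero _).trans h)).symm

lemma del_fr {N : DGMod.{u, w, w} R} {n m : ℤ} (h : n + 1 = m) (c : N.M n) :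
    del (free R) N n m h (fr c) = fr (N.d n m h c) := by
  apply ev_ext
  intro p q h' a
  rw [ev_del h _ p q (p + n) (p + 1) h' rfl (by lia) rfl (by lia), ev_fr, ev_fr, ev_fr,
    N.d_act (q' := p + 1) (by lia) h rfl (by lia) (by lia) (by lia), negOne_succ h, Units.neg_smul]
  exact add_neg_cancel_right _ _

lemma cmp_fr {N L : DGMod.{u, w, w} R} {n m l : ℤ} (h : n + m = l) (c : N.M n)
    (f : DGMod.Mor N L m) : cmp (free R) N L n m l h (fr c) f = fr (ev f n l h c) := by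
  apply ev_ext
  intro p q h' a
  rw [ev_cmp h _ _ p q (p + n) h' rfl (by lia), ev_fr, ev_fr,
    ev_act f (p := n) (q := l) h (by lia) (by lia) (by lia)]

lemma fr_inj {N : DGMod.{u, w, w} R} {n : ℤ} {c c' : N.M n} (h : fr c = fr c') : c = c' := by
  rw [← ev_fr_one c (zero_add n), h, ev_fr_one]

end

section

variable {k : Type u} [Field k] {R : DGAlg.{u, w} k}

lemma fr_add {N : DGMod.{u, w, w} R} {n : ℤ} (c c' : N.M n) : fr (c + c') = fr c + fr c' := by
  apply ev_ext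
  intro p q h x
  rw [ev_add, ev_fr, ev_fr, ev_fr, map_add, LinearMap.add_apply]

lemma fr_neg {N : DGMod.{u, w, w} R} {n : ℤ} (c : N.M n) : fr (-c) = - fr c := by
  apply ev_ext
  intro p q h x
  rw [ev_fr, map_neg, LinearMap.neg_apply]
  rfl

end

variable {k : Type u} [Field k] {C : Type v} [Category.{w} C] [Abelian C]
    [Linear k C] [HasDerivedCategory.{w'} C] {R : DGAlg.{u, w} k} {K I : CochainComplex C ℤ}
    (ρ : Action R K) (hI : I.IsKInjective) (κ : K ⟶ I)

/-- the structure morphism of the base triple -/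
noncomputable def u0 : DGMod.Mor (free R) (homMod ρ I) 0 :=
  fr (N := homMod ρ I) (Cochain.ofHom κ : Cochain K I 0)

lemma fr_zero {N : DGMod.{u, w, w} R} {n : ℤ} : fr (0 : N.M n) = 0 := by
  apply ev_ext
  intro p q h x
  rw [ev_fr, map_zero, LinearMap.zero_apply, ev_zero]

lemma du0 : del (free R) (homMod ρ I) 0 1 (zero_add 1) (u0 ρ κ) = 0 := by
  rw [u0, del_fr, hom_d, δ_ofHom]
  exact fr_zero (N := homMod ρ I)

lemma ev_u0 (p q : ℤ) (h : p + 0 = q) (a : R.A p) :
    ev (u0 ρ κ) p q h a = (ρ.act p a).comp (Cochain.ofHom κ) h := rfl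

/-- the base triple -/
noncomputable def X0 : GObj (HK (k := k) ρ) := ⟨free R, bb I hI, u0 ρ κ, du0 ρ κ⟩

omit [Linear k C] [HasDerivedCategory.{w'} C] in
lemma cone_acyclic [QuasiIso κ] : (mappingCone κ).Acyclic := by
  rw [← HomotopyCategory.quotient_obj_mem_subcategoryAcyclic_iff_acyclic]
  have h : HomotopyCategory.quasiIso C (ComplexShape.up ℤ)
      ((HomotopyCategory.quotient C (ComplexShape.up ℤ)).map κ) := by
    rw [HomotopyCategory.quotient_map_mem_quasiIso_iff, HomologicalComplex.mem_quasiIso_iff]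
    infer_instance
  rw [HomotopyCategory.quasiIso_eq_trW_subcategoryAcyclic, ObjectProperty.trW_iff] at h
  obtain ⟨Z, g, h, hT, hZ⟩ := h
  have e := Pretriangulated.isoTriangleOfIso₁₂ _ _ hT
    (HomotopyCategory.mappingCone_triangleh_distinguished κ) (Iso.refl _) (Iso.refl _) (by
      change _ ≫ 𝟙 _ = 𝟙 _ ≫ _
      rw [Category.comp_id, Category.id_comp]; rfl)
  exact ObjectProperty.prop_of_iso _ (Pretriangulated.Triangle.π₃.mapIso e) hZ

omit [Linear k C] [HasDerivedCategory.{w'} C] in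
lemma kappa_acyclic [QuasiIso κ] (L : CochainComplex C ℤ) [L.IsKInjective] {o p q r : ℤ}
    (h₀ : o + 1 = p) (h₁ : p + 1 = q) (h₂ : q + 1 = r) (z : Cochain I L q) (hz : δ q r z = 0)
    (c : Cochain K L p) (hc : (Cochain.ofHom κ).comp z (zero_add q) + δ p q c = 0) :
    ∃ (y : Cochain I L p) (e : Cochain K L o), δ p q y = z ∧
      (Cochain.ofHom κ).comp y (zero_add p) + δ o p e = - c := by
  let α : Cochain (mappingCone κ) L q := mappingCone.descCochain κ (p.negOnePow • c) z h₁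
  have hα : δ q r α = 0 := by
    rw [mappingCone.δ_descCochain _ _ _ _ r h₂, hz, Cochain.comp_zero, add_zero, δ_units_smul,
      eq_neg_of_add_eq_zero_right hc, negOne_succ h₂, negOne_succ h₁, neg_neg, smul_neg,
      neg_add_cancel, Cochain.comp_zero]
  obtain ⟨β, hβ⟩ := IsKInjective.eq_δ_of_cocycle (Cocycle.mk α r h₂ hα) (cone_acyclic κ) p h₁
  change δ p q β = α at hβ
  have h1 : δ p q ((Cochain.ofHom (mappingCone.inr κ)).comp β (zero_add p)) = z := by
    have := δ_zero_cocycle_comp (Cocycle.ofHom (mappingCone.inr κ)) β q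
    refine this.trans ?_
    rw [hβ]
    exact mappingCone.inr_descCochain _ _ _ _
  refine ⟨(Cochain.ofHom (mappingCone.inr κ)).comp β (zero_add p),
    - p.negOnePow • (mappingCone.inl κ).comp β (by lia), h1, ?_⟩
  rw [δ_units_smul, δ_comp (mappingCone.inl κ) β (by lia) 0 q p h₀ (by lia) h₁,
    mappingCone.δ_inl, hβ, mappingCone.inl_descCochain, smul_add, smul_smul, smul_smul,
    Cochain.ofHom_comp, Cochain.comp_assoc_of_first_is_zero_cochain]
  simp only [neg_mul, Int.units_mul_self, Units.neg_smul, one_smul]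
  abel

omit [Linear k C] [HasDerivedCategory.{w'} C] in
lemma kappa_acyclic' [QuasiIso κ] (L : CochainComplex C ℤ) [L.IsKInjective] {o p q r p' q' : ℤ}
    (h₀ : o + 1 = p) (h₁ : p + 1 = q) (h₂ : q + 1 = r) (hp : p = p') (hq : q = q')
    (z : Cochain I L q) (hz : δ q r z = 0)
    (c : Cochain K L p') (hc : (Cochain.ofHom κ).comp z (by lia) + δ p' q' c = 0) :
    ∃ (y : Cochain I L p) (e : Cochain K L o), δ p q y = z ∧
      (Cochain.ofHom κ).comp y (by lia) + δ o p' e = - c := by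
  subst hp hq
  exact kappa_acyclic κ L h₀ h₁ h₂ z hz c hc

/-- the left condition for the base triple -/
lemma X0_left [QuasiIso κ] : LOrth (Glue (HK (k := k) ρ)) SL (X0 ρ hI κ) := by
  intro Y hY p q r h₁ h₂ z hz
  haveI := Y.J.2.1
  have h1 : ∀ {n : ℤ} (f : DGMod.Mor (free R) Y.P n), f = 0 := by
    intro n f
    have h := (ModDG R).comp_one (X := free R) (Y := Y.P) f
    rw [show (ModDG R).one Y.P = 0 from hY, map_zero] at h
    exact h.symm
  have hz2 : δ q r (z.2.1 : Cochain I Y.J.1 q) = 0 := congrArg (fun t => t.2.1) hz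
  have hz3 := congrArg (fun t => t.2.2) hz
  obtain ⟨c, hc⟩ : ∃ c : Cochain K Y.J.1 (q - 1), z.2.2 = fr (N := homMod ρ Y.J.1) c :=
    ⟨_, eq_fr z.2.2⟩
  change cmp (free R) Y.P (homMod ρ Y.J.1) q 0 (r - 1) (by lia) z.1 Y.u -
    cmp (free R) (homMod ρ I) (homMod ρ Y.J.1) 0 q (r - 1) (by lia) (u0 ρ κ) (post ρ z.2.1) -
      del (free R) (homMod ρ Y.J.1) (q - 1) (r - 1) (by lia) z.2.2 = 0 at hz3
  rw [hc, h1 z.1, map_zero, LinearMap.zero_apply, u0, cmp_fr, del_fr] at hz3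
  have hz4 : (Cochain.ofHom κ).comp z.2.1 (by lia) + δ (q - 1) (r - 1) c = 0 := by
    have e1 := fr_add (N := homMod ρ Y.J.1) ((Cochain.ofHom κ).comp z.2.1 (by lia) :
      Cochain K Y.J.1 (r - 1)) (δ (q - 1) (r - 1) c)
    apply fr_inj (N := homMod ρ Y.J.1)
    refine e1.trans ?_
    rw [zero_sub, sub_eq_zero] at hz3
    have e2 : fr (N := homMod ρ Y.J.1) ((Cochain.ofHom κ).comp z.2.1 (by lia) :
      Cochain K Y.J.1 (r - 1)) = - fr (N := homMod ρ Y.J.1) (δ (q - 1) (r - 1) c) := by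
      exact neg_eq_iff_eq_neg.1 hz3
    rw [e2, neg_add_cancel]
    exact (fr_zero (N := homMod ρ Y.J.1)).symm
  obtain ⟨y, e, hy, he⟩ := kappa_acyclic' κ Y.J.1 (o := p - 1) (p := p) (q := q) (r := r)
    (p' := q - 1) (q' := r - 1) (by lia) h₁ h₂ (by lia) (by lia) z.2.1 hz2 c hz4
  refine ⟨gm _ _ 0 y (fr (N := homMod ρ Y.J.1) e), ?_⟩
  rw [G_d]
  refine G_ext ?_ hy ?_
  · exact (map_zero _).trans (h1 z.1).symm
  · change cmp (free R) Y.P (homMod ρ Y.J.1) p 0 (q - 1) (by lia) 0 Y.u -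
      cmp (free R) (homMod ρ I) (homMod ρ Y.J.1) 0 p (q - 1) (by lia) (u0 ρ κ) (post ρ y) -
      del (free R) (homMod ρ Y.J.1) (p - 1) (q - 1) (by lia) (fr (N := homMod ρ Y.J.1) e) = z.2.2
    rw [map_zero, LinearMap.zero_apply, u0, cmp_fr, del_fr, hc, hom_d, zero_sub]
    have e1 := fr_add (N := homMod ρ Y.J.1) ((Cochain.ofHom κ).comp y (by lia) :
      Cochain K Y.J.1 (q - 1)) (δ (p - 1) (q - 1) e)
    have e2 := fr_neg (N := homMod ρ Y.J.1) c
    have e3 : fr (N := homMod ρ Y.J.1) ((Cochain.ofHom κ).comp y (by lia) +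
      δ (p - 1) (q - 1) e : Cochain K Y.J.1 (q - 1)) = - fr (N := homMod ρ Y.J.1) c := by
      rw [he]; exact e2
    have e4 := e1.symm.trans e3
    have e5 := congrArg (fun t => - t) e4
    simp only [neg_neg] at e5
    refine Eq.trans ?_ e5
    refine (sub_eq_add_neg _ _).trans (Eq.trans ?_ (neg_add _ _).symm)
    rfl

section Right

variable (hs : ∀ (p q r : ℤ) (_ : p + 1 = q) (h₂ : q + 1 = r) (z : Cochain K I q), δ q r z = 0 →
      ∃ (a : R.A q) (b : Cochain K I p), R.d q r h₂ a = 0 ∧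
        (ρ.act q a).comp (Cochain.ofHom κ) (add_zero q) = z + δ p q b)
    (hi : ∀ (p q r : ℤ) (h₁ : p + 1 = q) (h₂ : q + 1 = r) (a : R.A q), R.d q r h₂ a = 0 →
      ∀ b : Cochain K I p, (ρ.act q a).comp (Cochain.ofHom κ) (add_zero q) = δ p q b →
        ∃ a' : R.A p, a = R.d p q h₁ a')

include hs hi in
lemma cone_u0_acyclic : LOrth (ModDG R) (fun Z => Z = cone (u0 ρ κ) (du0 ρ κ)) (free R) := by
  rintro Z rfl p q r h₁ h₂ z hz
  obtain ⟨c, hc⟩ : ∃ c, z = fr c := ⟨_, eq_fr z⟩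
  rw [mod_d, hc, del_fr] at hz
  have hc0 := fr_inj (hz.trans fr_zero.symm)
  obtain ⟨x, a, rfl⟩ : ∃ (x : Cochain K I q) (a : R.A (q + 1)), c = (x, a) := ⟨c.1, c.2, rfl⟩
  have h1 : δ q r (x : Cochain K I q) + (ρ.act (q + 1) a).comp (Cochain.ofHom κ) (by lia) = 0 :=
    congrArg Prod.fst hc0
  have h2 : R.d (q + 1) (r + 1) (by lia) a = 0 := neg_eq_zero.1 (congrArg Prod.snd hc0)
  subst h₁ h₂
  obtain ⟨a', ha'⟩ := hi (p + 1) (p + 1 + 1) (p + 1 + 1 + 1) rfl rfl a h2 (-x) (by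
    rw [δ_neg]; exact eq_neg_of_add_eq_zero_right h1)
  have h3 : δ (p + 1) (p + 1 + 1) ((ρ.act (p + 1) a').comp (Cochain.ofHom κ) (add_zero _)) =
      (ρ.act (p + 1 + 1) a).comp (Cochain.ofHom κ) (add_zero _) := by
    rw [δ_comp_ofHom, ha', ρ.act_d]
  obtain ⟨a'', b, ha'', hb⟩ := hs p (p + 1) (p + 1 + 1) rfl rfl
    (x + (ρ.act (p + 1) a').comp (Cochain.ofHom κ) (add_zero _)) (by
      rw [δ_add, h3]; exact h1)
  refine ⟨fr (N := cone (u0 ρ κ) (du0 ρ κ)) ((-b, a'' - a') : Cochain K I p × R.A (p + 1)), ?_⟩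
  rw [mod_d, del_fr, hc]
  congr 1
  refine Prod.ext ?_ ?_
  · change δ p (p + 1) (-b) + (ρ.act (p + 1) (a'' - a')).comp (Cochain.ofHom κ) (by lia) = x
    rw [map_sub, Cochain.sub_comp, hb, δ_neg]
    abel
  · change - R.d (p + 1) (p + 1 + 1) _ (a'' - a') = a
    rw [map_sub, ha'', zero_sub, neg_neg, ← ha']

include hs hi in
lemma perf_acyclic (P : DGMod.{u, w, w} R) (hP : IsPerf P) :
    LOrth (ModDG R) (fun Z => Z = cone (u0 ρ κ) (du0 ρ κ)) P := by
  induction hP with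
  | free => exact cone_u0_acyclic ρ κ hs hi
  | shift M n _ ih => exact LOrth.shift (modShift M n (-n) (by lia)) ih
  | cone M N f hf _ _ ih₁ ih₂ => exact LOrth.cone (modCone f hf) hf ih₁ ih₂
  | retract M N i p s di dp ip _ ih => exact LOrth.retract (D := ModDG R) ⟨i, p, s, di, dp, ip⟩ ih

include hs hi in
/-- the right condition for the base triple -/
lemma X0_right : ROrth (Glue (HK (k := k) ρ)) (SR IsPerf) (X0 ρ hI κ) := by
  intro Y hY p q r h₁ h₂ z hz
  exact rOrth_of_cone (X := X0 ρ hI κ) (modCone (u0 ρ κ) (du0 ρ κ))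
    (perf_acyclic ρ κ hs hi Y.P hY.1) hY.2 h₁ h₂ z hz

end Right

end Pool.Agent.N99.Cusp
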