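import Pool.Agent.N99.Cusp.Base

set_option autoImplicit false

/-!
K-injective complexes and the derived category.
-/

universe u v w v' w'

open CategoryTheory Pool.Agent.N212.DG CochainComplex CochainComplex.HomComplex DerivedCategory

namespace Pool.Agent.N99.Cusp

variable {C : Type v} [Category.{w} C] [Abelian C] [HasDerivedCategory.{w'} C]

lemma Q_eq {K L : CochainComplex C ℤ} (φ ψ : K ⟶ L) (s : Cochain K L (-1))
    (h : Cochain.ofHom φ = Cochain.ofHom ψ + δ (-1) 0 s) : Q.map φ = Q.map ψ :=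
  Q_map_eq_of_homotopy _ ((Cochain.equivHomotopy φ ψ).symm ⟨s, by rw [h, add_comm]⟩)

lemma Q_surj {K L : CochainComplex C ℤ} [L.IsKInjective] (f : Q.obj K ⟶ Q.obj L) :
    ∃ φ : K ⟶ L, Q.map φ = f := by
  obtain ⟨g, hg⟩ := (IsKInjective.Qh_map_bijective ((HomotopyCategory.quotient _ _).obj K) L).2
    ((quotientCompQhIso C).hom.app K ≫ f ≫ (quotientCompQhIso C).inv.app L)
  obtain ⟨φ, rfl⟩ := (HomotopyCategory.quotient _ _).map_surjective g
  refine ⟨φ, ?_⟩
  have h := quotientCompQhIso_hom_naturality φ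
  rw [hg] at h
  simp only [Category.assoc, Iso.inv_hom_id_app, Functor.comp_obj, Category.comp_id] at h
  exact ((cancel_epi _).1 h).symm

lemma Q_inj {K L : CochainComplex C ℤ} [L.IsKInjective] {φ ψ : K ⟶ L}
    (h : Q.map φ = Q.map ψ) :
    ∃ s : Cochain K L (-1), Cochain.ofHom φ = Cochain.ofHom ψ + δ (-1) 0 s := by
  have h1 : Qh.map ((HomotopyCategory.quotient _ _).map φ) =
      Qh.map ((HomotopyCategory.quotient _ _).map ψ) := by
    rw [← cancel_mono ((quotientCompQhIso C).hom.app L), quotientCompQhIso_hom_naturality,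
      quotientCompQhIso_hom_naturality, h]
  have h2 := (IsKInjective.Qh_map_bijective ((HomotopyCategory.quotient _ _).obj K) L).1 h1
  obtain ⟨s, hs⟩ := Cochain.equivHomotopy φ ψ (HomotopyCategory.homotopyOfEq _ _ h2)
  exact ⟨s, by rw [hs, add_comm]⟩

variable (T : ObjectProperty (DerivedCategory C))

lemma T_shift [T.IsClosedUnderIsomorphisms] [T.IsStableUnderShift ℤ] (J : CochainComplex C ℤ)
    (n : ℤ) (h : T (Q.obj J)) :
    T (Q.obj (J⟦n⟧)) :=
  T.prop_of_iso ((Q.commShiftIso n).app J).symm (T.le_shift n _ h)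

lemma T_cone [T.IsClosedUnderIsomorphisms] [T.IsTriangulatedClosed₃] {J L : CochainComplex C ℤ}
    (φ : J ⟶ L) (hJ : T (Q.obj J)) (hL : T (Q.obj L)) : T (Q.obj (mappingCone φ)) :=
  T.ext_of_isTriangulatedClosed₃ _ (mappingCone_triangle_distinguished φ) hJ hL

/-- the third object of a triangle is the cone -/
lemma exists_cone_iso {X Y : CochainComplex C ℤ} [Y.IsKInjective]
    (T : Pretriangulated.Triangle (DerivedCategory C))
    (hT : T ∈ Pretriangulated.distinguishedTriangles) (e₁ : T.obj₁ ≅ Q.obj X)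
    (e₂ : T.obj₂ ≅ Q.obj Y) : ∃ φ : X ⟶ Y, Nonempty (T.obj₃ ≅ Q.obj (mappingCone φ)) := by
  obtain ⟨φ, hφ⟩ := Q_surj (e₁.inv ≫ T.mor₁ ≫ e₂.hom)
  refine ⟨φ, ⟨?_⟩⟩
  exact Pretriangulated.Triangle.π₃.mapIso (Pretriangulated.isoTriangleOfIso₁₂ _ _ hT
    (mappingCone_triangle_distinguished φ) e₁ e₂ (by
      change T.mor₁ ≫ e₂.hom = e₁.hom ≫ Q.map φ
      rw [hφ, Iso.hom_inv_id_assoc]))

end Pool.Agent.N99.Cusp
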