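import Pool.Agent.N99.Cusp.Glue

set_option autoImplicit false

/-!
Shifts, cones and powers in the gluing of two DG categories.
-/

universe u v w v' w'

open Pool.Agent.N212.DG

namespace Pool.Agent.N99.Cusp

variable {k : Type u} [Field k] {M : DGCat.{u, v, w} k} {B : DGCat.{u, v', w} k}
  {H : DGFun B M}

/-- the triple of components of a morphism -/
def gm (X Y : GObj H) {n : ℤ} (f : M.Hom X.P Y.P n) (g : B.Hom X.J Y.J n)
    (h : M.Hom X.P (H.obj Y.J) (n - 1)) : (Glue H).Hom X Y n := (f, g, h)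

lemma G_comp {X Y Z : GObj H} {p q r : ℤ} (h : p + q = r) (f : (Glue H).Hom X Y p)
    (g : (Glue H).Hom Y Z q) : (Glue H).comp h f g = gm X Z (M.comp h f.1 g.1)
      (B.comp h f.2.1 g.2.1)
      (M.comp (by lia) f.1 g.2.2 + q.negOnePow • M.comp (by lia) f.2.2 (H.map g.2.1)) := rfl

lemma G_d {X Y : GObj H} {p q : ℤ} (h : p + 1 = q) (f : (Glue H).Hom X Y p) :
    (Glue H).d p q h f = gm X Y (M.d p q h f.1) (B.d p q h f.2.1)
      (M.comp (by lia) f.1 Y.u - M.comp (by lia) X.u (H.map f.2.1) -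
          M.d (p - 1) (q - 1) (by lia) f.2.2) := rfl

lemma G_ext {X Y : GObj H} {n : ℤ} {f g : (Glue H).Hom X Y n} (h₁ : f.1 = g.1)
    (h₂ : f.2.1 = g.2.1) (h₃ : f.2.2 = g.2.2) : f = g := Prod.ext h₁ (Prod.ext h₂ h₃)

lemma map_closed (H : DGFun B M) {X Y : B.Obj} {p q : ℤ} (h : p + 1 = q) (f : B.Hom X Y p)
    (hf : B.d p q h f = 0) : M.d p q h (H.map f) = 0 := by
  rw [← H.map_d, hf, map_zero]

/-- shift of a triple -/
@[reducible] def gshift (X : GObj H) {P' : M.Obj} {J' : B.Obj} {n m : ℤ} {h : m + n = 0}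
    (a : ShiftData M X.P P' n m h) (b : ShiftData B X.J J' n m h) : GObj H where
  P := P'
  J := J'
  u := M.comp (by lia) a.t (M.comp (zero_add m) X.u (H.map b.s))
  du := by
    refine comp_closed M (by lia) rfl rfl _ _ _ a.dt ?_
    exact comp_closed M _ (zero_add 1) rfl _ _ _ X.du (map_closed H _ _ b.ds)

/-- shift of a triple -/
def gshiftData (X : GObj H) {P' : M.Obj} {J' : B.Obj} {n m : ℤ} {h : m + n = 0}
    (a : ShiftData M X.P P' n m h) (b : ShiftData B X.J J' n m h) :
    ShiftData (Glue H) X (gshift X a b) n m h where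
  s := gm X (gshift X a b) a.s b.s 0
  t := gm (gshift X a b) X a.t b.t 0
  ds := by
    rw [G_d]
    refine G_ext a.ds b.ds ?_
    change M.comp _ a.s (M.comp _ a.t (M.comp (zero_add m) X.u (H.map b.s))) -
      M.comp _ X.u (H.map b.s) - M.d _ _ _ 0 = 0
    rw [map_zero, sub_zero, ← M.assoc (p := m) (q := n) (r := m) (pq := 0) (qr := 0)
      (pqr := m + 1 - 1) h (by lia) (by lia) (by lia), a.st,
      ← M.assoc (p := 0) (q := 0) (r := m) (pq := 0) (qr := m)
      (pqr := m + 1 - 1) (by lia) (by lia) (by lia) (by lia), M.one_comp, sub_self]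
  dt := by
    rw [G_d]
    refine G_ext a.dt b.dt ?_
    change M.comp _ a.t X.u - M.comp _ (M.comp _ a.t (M.comp (zero_add m) X.u (H.map b.s)))
      (H.map b.t) - M.d _ _ _ 0 = 0
    rw [map_zero, sub_zero, M.assoc (p := n) (q := m) (r := n) (pq := 0) (qr := 0)
      (pqr := n + 1 - 1) (by lia) (by lia) (by lia) (by lia),
      M.assoc (p := 0) (q := m) (r := n) (pq := m) (qr := 0) (pqr := 0) (by lia) (by lia)
      (by lia) (by lia), ← H.map_comp h, b.st, H.map_one, M.comp_one, sub_self]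
  st := by
    rw [G_comp]
    refine G_ext a.st b.st ?_
    change M.comp _ a.s 0 + n.negOnePow • M.comp _ 0 (H.map b.t) = 0
    rw [map_zero, map_zero, LinearMap.zero_apply, smul_zero, add_zero]
  ts := by
    rw [G_comp]
    refine G_ext a.ts b.ts ?_
    change M.comp _ a.t 0 + m.negOnePow • M.comp _ 0 (H.map b.s) = 0
    rw [map_zero, map_zero, LinearMap.zero_apply, smul_zero, add_zero]

section

variable {X Z : GObj H} (f : (Glue H).Hom X Z 0) (hf : (Glue H).d 0 1 (zero_add 1) f = 0)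
  {P' : M.Obj} {J' : B.Obj} (a : ConeData M f.1 P') (b : ConeData B f.2.1 J')

/-- part of the structure morphism of the cone -/
def cA : M.Hom Z.P (H.obj J') 0 := M.comp (add_zero 0) Z.u (H.map b.inr)

/-- part of the structure morphism of the cone -/
def cB : M.Hom X.P (H.obj J') (-1) := M.comp (zero_add (-1)) X.u (H.map b.inl) +
  M.comp (by lia) f.2.2 (H.map b.inr)

lemma d_cA : M.d 0 1 (zero_add 1) (cA f b) = 0 :=
  comp_closed M _ (zero_add 1) (zero_add 1) _ _ _ Z.du (map_closed H _ _ b.d_inr)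

include hf in
lemma closed1 : M.d 0 1 (zero_add 1) f.1 = 0 := congrArg Prod.fst hf

include hf in
lemma closed2 : B.d 0 1 (zero_add 1) f.2.1 = 0 := congrArg (fun t => t.2.1) hf

include hf in
lemma closed3 : M.d (0 - 1) (1 - 1) (by lia) f.2.2 =
    M.comp (by lia) f.1 Z.u - M.comp (by lia) X.u (H.map f.2.1) := by
  have h := congrArg (fun t => t.2.2) hf
  change M.comp _ f.1 Z.u - M.comp _ X.u (H.map f.2.1) - M.d (0 - 1) (1 - 1) _ f.2.2 = 0 at h
  exact (sub_eq_zero.1 h).symm

include hf in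
lemma d_cB : M.d (-1) 0 (by lia) (cB f b) = M.comp (add_zero 0) f.1 (cA f b) := by
  rw [cB, map_add, d_closed_comp M (p' := 1) (q' := 0) (r' := 0) (by lia) (by lia) (by lia)
    (by lia) (by lia) X.u _ X.du, ← H.map_d, b.d_inl, H.map_comp,
    d_comp_closed M (p := 0 - 1) (q := 0) (r := -1) (p' := 1 - 1) (q' := 1) (r' := 0)
    (by lia) (by lia) (by lia) (by lia) (by lia) f.2.2 (H.map b.inr) (map_closed H _ _ b.d_inr),
    closed3 f hf, Int.negOnePow_zero, one_smul, map_sub, LinearMap.sub_apply, cA,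
    M.assoc (p := 0) (q := 0) (r := 0) (pq := 1 - 1) (qr := 0) (pqr := 0) (by lia) (by lia)
    (by lia) (by lia) f.1 Z.u,
    M.assoc (p := 0) (q := 0) (r := 0) (pq := 1 - 1) (qr := 0) (pqr := 0) (by lia) (by lia)
    (by lia) (by lia) X.u (H.map f.2.1)]
  abel

/-- the structure morphism of the cone -/
def cu : M.Hom P' (H.obj J') 0 :=
  M.comp (add_zero 0) a.snd (cA f b) + M.comp (by lia) a.fst (cB f b)

include hf in
lemma d_cu : M.d 0 1 (zero_add 1) (cu f a b) = 0 := by
    rw [cu, map_add, d_comp_closed M (p' := 1) (q' := 1) (r' := 1) (by lia) (by lia) (by lia)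
      (by lia) (by lia) a.snd _ (d_cA f b), a.d_snd,
      d_closed_comp M (p := 1) (q := -1) (r := 0) (p' := 2) (q' := 0) (r' := 1) (by lia) (by lia)
      (by lia) (by lia) (by lia) a.fst _ a.d_fst, d_cB f hf b, Int.negOnePow_zero, one_smul,
      map_neg, LinearMap.neg_apply, M.assoc (p := 1) (q := 0) (r := 0) (pq := 1) (qr := 0)
      (pqr := 1) (by lia) (by lia) (by lia) (by lia), neg_add_cancel]

/-- cone of a morphism of triples -/
@[reducible] def gcone : GObj H where
  P := P'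
  J := J'
  u := cu f a b
  du := d_cu f hf a b

lemma inl_u : M.comp (add_zero (-1)) a.inl (cu f a b) = cB f b := by
  rw [cu, map_add, ← M.assoc (p := -1) (q := 0) (r := 0) (pq := -1) (qr := 0)
      (pqr := -1) (by lia) (by lia) (by lia) (by lia), a.inl_snd,
      ← M.assoc (p := -1) (q := 1) (r := -1) (pq := 0) (qr := 0)
      (pqr := -1) (by lia) (by lia) (by lia) (by lia), a.inl_fst, M.one_comp, map_zero,
      LinearMap.zero_apply, zero_add]

lemma inr_u : M.comp (add_zero 0) a.inr (cu f a b) = cA f b := by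
  rw [cu, map_add, ← M.assoc (p := 0) (q := 0) (r := 0) (pq := 0) (qr := 0)
      (pqr := 0) (by lia) (by lia) (by lia) (by lia), a.inr_snd,
      ← M.assoc (p := 0) (q := 1) (r := -1) (pq := 1) (qr := 0)
      (pqr := 0) (by lia) (by lia) (by lia) (by lia), a.inr_fst, M.one_comp, map_zero,
      LinearMap.zero_apply, add_zero]

lemma u_fst : M.comp (zero_add 1) (cu f a b) (H.map b.fst) =
    M.comp (add_zero 1) a.fst X.u := by
  rw [cu]
  have e1 : M.comp (zero_add 1) (cA f b) (H.map b.fst) = 0 := by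
    rw [cA, M.assoc (p := 0) (q := 0) (r := 1) (pq := 0) (qr := 1) (pqr := 1) (by lia) (by lia)
      (by lia) (by lia), ← H.map_comp, b.inr_fst, map_zero, map_zero]
  have e2 : M.comp (by lia) (cB f b) (H.map b.fst) = X.u := by
    rw [cB, map_add, LinearMap.add_apply,
      M.assoc (p := 0) (q := -1) (r := 1) (pq := -1) (qr := 0) (pqr := 0) (by lia) (by lia)
      (by lia) (by lia), ← H.map_comp, b.inl_fst, H.map_one, M.comp_one,
      M.assoc (p := 0 - 1) (q := 0) (r := 1) (pq := -1) (qr := 1) (pqr := 0) (by lia) (by lia)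
      (by lia) (by lia), ← H.map_comp, b.inr_fst, map_zero, map_zero, add_zero]
  rw [map_add, LinearMap.add_apply, M.assoc (p := 0) (q := 0) (r := 1) (pq := 0) (qr := 1)
    (pqr := 1) (by lia) (by lia) (by lia) (by lia), e1, M.assoc (p := 1) (q := -1) (r := 1)
    (pq := 0) (qr := 0) (pqr := 1) (by lia) (by lia) (by lia) (by lia), e2, map_zero, zero_add]

lemma u_snd (s : ℤ) (hs : s = -1) (h' : M.Hom X.P (H.obj Z.J) s) (hh : HEq h' f.2.2) :
    M.comp (add_zero 0) (cu f a b) (H.map b.snd) =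
    M.comp (add_zero 0) a.snd Z.u + M.comp (by lia) a.fst h' := by
  obtain rfl : s = 0 - 1 := by lia
  obtain rfl := eq_of_heq hh
  rw [cu]
  have e1 : M.comp (add_zero 0) (cA f b) (H.map b.snd) = Z.u := by
    rw [cA, M.assoc (p := 0) (q := 0) (r := 0) (pq := 0) (qr := 0) (pqr := 0) (by lia) (by lia)
      (by lia) (by lia), ← H.map_comp, b.inr_snd, H.map_one, M.comp_one]
  have e2 : M.comp (by lia) (cB f b) (H.map b.snd) = f.2.2 := by
    rw [cB, map_add, LinearMap.add_apply,
      M.assoc (p := 0) (q := -1) (r := 0) (pq := -1) (qr := -1) (pqr := 0 - 1) (by lia) (by lia)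
      (by lia) (by lia), ← H.map_comp, b.inl_snd, map_zero, map_zero, zero_add,
      M.assoc (p := 0 - 1) (q := 0) (r := 0) (pq := -1) (qr := 0) (pqr := 0 - 1) (by lia) (by lia)
      (by lia) (by lia), ← H.map_comp, b.inr_snd, H.map_one, M.comp_one]
  rw [map_add, LinearMap.add_apply, M.assoc (p := 0) (q := 0) (r := 0) (pq := 0) (qr := 0)
    (pqr := 0) (by lia) (by lia) (by lia) (by lia), e1, M.assoc (p := 1) (q := -1) (r := 0)
    (pq := 0) (qr := 0 - 1) (pqr := 0) (by lia) (by lia) (by lia) (by lia), e2]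

/-- cone of a morphism of triples -/
def gconeData : ConeData (Glue H) f (gcone f hf a b) where
  inl := gm X (gcone f hf a b) a.inl b.inl 0
  inr := gm Z (gcone f hf a b) a.inr b.inr 0
  fst := gm (gcone f hf a b) X a.fst b.fst 0
  snd := gm (gcone f hf a b) Z a.snd b.snd 0
  d_inr := by
    rw [G_d]
    refine G_ext a.d_inr b.d_inr ?_
    change M.comp _ a.inr (cu f a b) - M.comp _ Z.u (H.map b.inr) - M.d _ _ _ 0 = 0
    rw [map_zero, sub_zero]
    exact sub_eq_zero.2 (inr_u f a b)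
  d_inl := by
    rw [G_d, G_comp]
    refine G_ext a.d_inl b.d_inl ?_
    change M.comp _ a.inl (cu f a b) - M.comp _ X.u (H.map b.inl) - M.d _ _ _ 0 =
      M.comp _ f.1 0 + (0 : ℤ).negOnePow • M.comp _ f.2.2 (H.map b.inr)
    rw [map_zero, sub_zero, map_zero, zero_add, Int.negOnePow_zero, one_smul]
    have := inl_u f a b
    exact sub_eq_iff_eq_add.2 (this.trans (add_comm _ _))
  d_fst := by
    rw [G_d]
    refine G_ext a.d_fst b.d_fst ?_
    change M.comp _ a.fst X.u - M.comp _ (cu f a b) (H.map b.fst) - M.d _ _ _ 0 = 0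
    rw [map_zero, sub_zero]
    exact sub_eq_zero.2 (u_fst f a b).symm
  d_snd := by
    rw [G_d, G_comp]
    refine G_ext a.d_snd b.d_snd ?_
    change M.comp _ a.snd Z.u - M.comp _ (cu f a b) (H.map b.snd) - M.d _ _ _ 0 =
      -(M.comp _ a.fst f.2.2 + (0 : ℤ).negOnePow • M.comp _ 0 (H.map f.2.1))
    rw [map_zero, sub_zero, map_zero, LinearMap.zero_apply, smul_zero, add_zero]
    have := u_snd f a b (0 - 1) (by lia) f.2.2 HEq.rfl
    refine sub_eq_iff_eq_add.2 ?_
    refine Eq.trans ?_ (congrArg (fun t => - M.comp (by lia) a.fst f.2.2 + t) this).symm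
    simp
  inl_fst := by
    rw [G_comp]
    refine G_ext a.inl_fst b.inl_fst ?_
    change M.comp _ a.inl 0 + (1 : ℤ).negOnePow • M.comp _ 0 (H.map b.fst) = 0
    rw [map_zero, map_zero, LinearMap.zero_apply, smul_zero, add_zero]
  inr_snd := by
    rw [G_comp]
    refine G_ext a.inr_snd b.inr_snd ?_
    change M.comp _ a.inr 0 + (0 : ℤ).negOnePow • M.comp _ 0 (H.map b.snd) = 0
    rw [map_zero, map_zero, LinearMap.zero_apply, smul_zero, add_zero]
  inl_snd := by
    rw [G_comp]
    refine G_ext a.inl_snd b.inl_snd ?_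
    change M.comp _ a.inl 0 + (0 : ℤ).negOnePow • M.comp _ 0 (H.map b.snd) = 0
    rw [map_zero, map_zero, LinearMap.zero_apply, smul_zero, add_zero]
  inr_fst := by
    rw [G_comp]
    refine G_ext a.inr_fst b.inr_fst ?_
    change M.comp _ a.inr 0 + (1 : ℤ).negOnePow • M.comp _ 0 (H.map b.fst) = 0
    rw [map_zero, map_zero, LinearMap.zero_apply, smul_zero, add_zero]
  id := by
    rw [G_comp, G_comp]
    refine G_ext a.id b.id ?_
    change (M.comp _ a.fst 0 + (-1 : ℤ).negOnePow • M.comp _ 0 (H.map b.inl)) +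
      (M.comp _ a.snd 0 + (0 : ℤ).negOnePow • M.comp _ 0 (H.map b.inr)) = 0
    rw [map_zero, map_zero, map_zero, map_zero, LinearMap.zero_apply, LinearMap.zero_apply,
      smul_zero, smul_zero, add_zero, add_zero]

end

section

variable (X : GObj H) {P' : M.Obj} {J' : B.Obj} (a : PowData M X.P P')
  (b : PowData B X.J J') (c : PowData M (H.obj X.J) (H.obj J'))
  (hc : ∀ i, c.pr i = H.map (b.pr i))

include a hc in
lemma exists_gpow : ∃ Y : GObj H, Nonempty (PowData (Glue H) X Y) := by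
  obtain ⟨u, hu⟩ := c.exists_lift P' 0 (fun i => M.comp (add_zero 0) (a.pr i) X.u)
  have du : M.d 0 1 (zero_add 1) u = 0 := by
    apply c.d_ext
    intro i
    rw [hu, map_zero, LinearMap.zero_apply]
    exact comp_closed M _ (zero_add 1) (zero_add 1) _ _ _ (a.d_pr i) X.du
  refine ⟨⟨P', J', u, du⟩, ⟨{
    pr := fun i => gm ⟨P', J', u, du⟩ X (a.pr i) (b.pr i) 0
    d_pr := ?_
    exists_lift := ?_
    ext := ?_ }⟩⟩
  · intro i
    rw [G_d]
    refine G_ext (a.d_pr i) (b.d_pr i) ?_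
    change M.comp _ (a.pr i) X.u - M.comp _ u (H.map (b.pr i)) - M.d _ _ _ 0 = 0
    rw [map_zero, sub_zero, ← hc]
    exact sub_eq_zero.2 (hu i).symm
  · intro Z n f
    obtain ⟨g1, hg1⟩ := a.exists_lift Z.P n (fun i => (f i).1)
    obtain ⟨g2, hg2⟩ := b.exists_lift Z.J n (fun i => (f i).2.1)
    obtain ⟨g3, hg3⟩ := c.exists_lift Z.P (n - 1) (fun i => (f i).2.2)
    refine ⟨gm Z ⟨P', J', u, du⟩ g1 g2 g3, fun i => ?_⟩
    rw [G_comp]
    refine G_ext (hg1 i) (hg2 i) ?_
    change M.comp _ g1 0 + (0 : ℤ).negOnePow • M.comp _ g3 (H.map (b.pr i)) = _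
    rw [map_zero, zero_add, Int.negOnePow_zero, one_smul, ← hc]
    exact hg3 i
  · intro Z n f g h
    refine G_ext (a.ext _ _ _ _ fun i => congrArg Prod.fst (h i))
      (b.ext _ _ _ _ fun i => congrArg (fun t => t.2.1) (h i)) (c.ext _ _ _ _ fun i => ?_)
    have := congrArg (fun t => t.2.2) (h i)
    change M.comp _ f.1 0 + (0 : ℤ).negOnePow • M.comp _ f.2.2 (H.map (b.pr i)) =
      M.comp _ g.1 0 + (0 : ℤ).negOnePow • M.comp _ g.2.2 (H.map (b.pr i)) at this
    rw [map_zero, zero_add, Int.negOnePow_zero, one_smul, map_zero, zero_add,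
      one_smul, ← hc] at this
    exact this

end

end Pool.Agent.N99.Cusp
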