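import Pool.Agent.N99.Cusp.Split

set_option autoImplicit false

/-!
The gluing of two DG categories along a DG functor.
-/

universe u v w v' w'

open Pool.Agent.N212.DG

namespace Pool.Agent.N99.Cusp

variable {k : Type u} [Field k] {M : DGCat.{u, v, w} k} {B : DGCat.{u, v', w} k}

lemma map_units {B : DGCat.{u, v', w'} k} (H : DGFun B M) {X Y : B.Obj} {p : ℤ} (c : ℤˣ)
    (f : B.Hom X Y p) : H.map (c • f) = c • H.map f := by
  rcases Int.units_eq_one_or c with rfl | rfl
  · simp
  · simp

/-- objects of the gluing -/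
structure GObj (H : DGFun B M) where
  /-- first object -/
  P : M.Obj
  /-- second object -/
  J : B.Obj
  /-- the morphism -/
  u : M.Hom P (H.obj J) 0
  du : M.d 0 1 (zero_add 1) u = 0

variable (H : DGFun B M)

lemma negOne_succ {p q : ℤ} (h : p + 1 = q) : q.negOnePow = - p.negOnePow := by
  rw [← h, Int.negOnePow_add, Int.negOnePow_one]; simp

/-- the gluing -/
def Glue : DGCat.{u, max v v' w, w} k where
  Obj := GObj H
  Hom X Y n := M.Hom X.P Y.P n × B.Hom X.J Y.J n × M.Hom X.P (H.obj Y.J) (n - 1)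
  d {X Y} p q h :=
    { toFun := fun f => (M.d p q h f.1, B.d p q h f.2.1,
        M.comp (by lia) f.1 Y.u - M.comp (by lia) X.u (H.map f.2.1) -
          M.d (p - 1) (q - 1) (by lia) f.2.2)
      map_add' := by
        intro f g
        refine Prod.ext ?_ (Prod.ext ?_ ?_)
        · exact map_add _ _ _
        · exact map_add _ _ _
        · simp only [Prod.fst_add, Prod.snd_add, map_add, LinearMap.add_apply]
          abel
      map_smul' := by
        intro c f
        refine Prod.ext ?_ (Prod.ext ?_ ?_)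
        · exact map_smul _ _ _
        · exact map_smul _ _ _
        · simp only [Prod.smul_fst, Prod.smul_snd, map_smul, LinearMap.smul_apply,
            RingHom.id_apply, smul_sub] }
  comp {X Y Z p q r} h := LinearMap.mk₂ k (fun f g => (M.comp h f.1 g.1, B.comp h f.2.1 g.2.1,
      M.comp (by lia) f.1 g.2.2 + q.negOnePow • M.comp (by lia) f.2.2 (H.map g.2.1)))
    (by
      intro f f' g
      refine Prod.ext ?_ (Prod.ext ?_ ?_)
      · simp
      · simp
      · simp only [Prod.fst_add, Prod.snd_add, map_add, LinearMap.add_apply, smul_add]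
        abel)
    (by
      intro c f g
      refine Prod.ext ?_ (Prod.ext ?_ ?_)
      · simp
      · simp
      · simp only [Prod.smul_fst, Prod.smul_snd, map_smul, LinearMap.smul_apply, smul_add]
        rw [Units.smul_def, Units.smul_def, smul_comm])
    (by
      intro f g g'
      refine Prod.ext ?_ (Prod.ext ?_ ?_)
      · simp
      · simp
      · simp only [Prod.fst_add, Prod.snd_add, map_add, LinearMap.add_apply, smul_add]
        abel)
    (by
      intro c f g
      refine Prod.ext ?_ (Prod.ext ?_ ?_)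
      · simp
      · simp
      · simp only [Prod.smul_fst, Prod.smul_snd, map_smul, LinearMap.smul_apply, smul_add]
        rw [Units.smul_def, Units.smul_def, smul_comm])
  one X := (M.one X.P, B.one X.J, 0)
  one_comp {X Y} p f := by
    refine Prod.ext (M.one_comp f.1) (Prod.ext (B.one_comp f.2.1) ?_)
    change M.comp _ (M.one X.P) f.2.2 + p.negOnePow • M.comp _ (0 : M.Hom X.P (H.obj X.J) (0 - 1))
      (H.map f.2.1) = f.2.2
    rw [M.one_comp, map_zero, LinearMap.zero_apply, smul_zero, add_zero]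
  comp_one {X Y} p f := by
    refine Prod.ext (M.comp_one f.1) (Prod.ext (B.comp_one f.2.1) ?_)
    change M.comp _ f.1 (0 : M.Hom Y.P (H.obj Y.J) (0 - 1)) + (0 : ℤ).negOnePow • M.comp _ f.2.2
      (H.map (B.one Y.J)) = f.2.2
    rw [H.map_one, M.comp_one, map_zero, zero_add, Int.negOnePow_zero, one_smul]
  assoc {X Y Z W p q r pq qr pqr} h₁ h₂ h₃ h₄ f g h := by
    refine Prod.ext (M.assoc h₁ h₂ h₃ h₄ f.1 g.1 h.1)
      (Prod.ext (B.assoc h₁ h₂ h₃ h₄ f.2.1 g.2.1 h.2.1) ?_)
    change M.comp _ (M.comp h₁ f.1 g.1) h.2.2 + r.negOnePow • M.comp _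
      (M.comp _ f.1 g.2.2 + q.negOnePow • M.comp _ f.2.2 (H.map g.2.1)) (H.map h.2.1) =
      M.comp _ f.1 (M.comp _ g.1 h.2.2 + r.negOnePow • M.comp _ g.2.2 (H.map h.2.1)) +
      qr.negOnePow • M.comp _ f.2.2 (H.map (B.comp h₂ g.2.1 h.2.1))
    rw [H.map_comp, map_add, LinearMap.add_apply, map_add, units_comp, comp_units,
      M.assoc h₁ (qr := qr - 1) (by lia) (by lia) (by lia),
      M.assoc (p := p) (q := q - 1) (r := r) (pq := pq - 1) (qr := qr - 1) (pqr := pqr - 1)
        (by lia) (by lia) (by lia) (by lia),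
      M.assoc (p := p - 1) (q := q) (r := r) (pq := pq - 1) (qr := qr) (pqr := pqr - 1)
        (by lia) (by lia) (by lia) (by lia), smul_add, smul_smul, ← Int.negOnePow_add,
      show r + q = qr by lia, add_assoc]
  d_d {X Y} p q r h₁ h₂ f := by
    refine Prod.ext (M.d_d h₁ h₂ f.1) (Prod.ext (B.d_d h₁ h₂ f.2.1) ?_)
    change M.comp _ (M.d p q h₁ f.1) Y.u - M.comp _ X.u (H.map (B.d p q h₁ f.2.1)) -
      M.d (q - 1) (r - 1) _ (M.comp _ f.1 Y.u - M.comp _ X.u (H.map f.2.1) -
        M.d (p - 1) (q - 1) _ f.2.2) = 0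
    rw [map_sub, map_sub, M.d_d, d_comp_closed M (p := p) (q := 0) (r := q - 1) (p' := q)
      (q' := 1) (r' := r - 1) (by lia) (by lia) (by lia) (by lia) (by lia) f.1 Y.u Y.du,
      d_closed_comp M (p := 0) (q := p) (r := q - 1) (p' := 1)
      (q' := q) (r' := r - 1) (by lia) (by lia) (by lia) (by lia) (by lia) X.u _ X.du,
      H.map_d, Int.negOnePow_zero, one_smul]
    abel
  d_comp {X Y Z p q r p' q' r'} h hp hq hr h₁ h₂ f g := by
    refine Prod.ext (M.d_comp h hp hq hr h₁ h₂ f.1 g.1)
      (Prod.ext (B.d_comp h hp hq hr h₁ h₂ f.2.1 g.2.1) ?_)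
    change M.comp _ (M.comp h f.1 g.1) Z.u - M.comp _ X.u (H.map (B.comp h f.2.1 g.2.1)) -
      M.d (r - 1) (r' - 1) _ (M.comp _ f.1 g.2.2 + q.negOnePow • M.comp _ f.2.2 (H.map g.2.1)) =
      (M.comp _ f.1 (M.comp _ g.1 Z.u - M.comp _ Y.u (H.map g.2.1) -
        M.d (q - 1) (q' - 1) _ g.2.2) +
        q'.negOnePow • M.comp _ f.2.2 (H.map (B.d q q' hq g.2.1))) +
      q.negOnePow • (M.comp _ (M.d p p' hp f.1) g.2.2 + q.negOnePow • M.comp _
        (M.comp _ f.1 Y.u - M.comp _ X.u (H.map f.2.1) -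
          M.d (p - 1) (p' - 1) _ f.2.2) (H.map g.2.1))
    have hs : (q - 1).negOnePow = - q.negOnePow := by
      rw [negOne_succ (show (q - 1) + 1 = q by lia), neg_neg]
    rw [H.map_comp, H.map_d, map_add,
      M.d_comp (p := p) (q := q - 1) (r := r - 1) (p' := p') (q' := q' - 1) (r' := r' - 1)
        (by lia) (by lia) (by lia) (by lia) (by lia) (by lia) f.1 g.2.2, d_units,
      M.d_comp (p := p - 1) (q := q) (r := r - 1) (p' := p' - 1) (q' := q') (r' := r' - 1)
        (by lia) (by lia) (by lia) (by lia) (by lia) (by lia) f.2.2 (H.map g.2.1),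
      map_sub, map_sub, map_sub, map_sub, LinearMap.sub_apply, LinearMap.sub_apply,
      M.assoc h (q := q) (r := 0) (qr := q' - 1) (pqr := r' - 1) (by lia) (by lia) (by lia),
      ← M.assoc (p := 0) (q := p) (r := q) (pq := p' - 1) (qr := r) (pqr := r' - 1)
        (by lia) (by lia) (by lia) (by lia) X.u,
      M.assoc (p := p) (q := 0) (r := q) (pq := p' - 1) (qr := q' - 1) (pqr := r' - 1)
        (by lia) (by lia) (by lia) (by lia) f.1 Y.u,
      negOne_succ hq, hs]
    simp only [smul_add, smul_sub, smul_smul, Int.units_mul_self, one_smul, Units.neg_smul,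
      neg_neg, smul_neg]
    abel

end Pool.Agent.N99.Cusp
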