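import Pool.Agent.N99.Cusp.DC

set_option autoImplicit false

/-!
Good triples: closure properties.
-/

universe u v w v' w'

open CategoryTheory Pool.Agent.N212.DG CochainComplex CochainComplex.HomComplex DerivedCategory

open scoped ZeroObject

namespace Pool.Agent.N99.Cusp

variable {k : Type u} [Field k] {C : Type v} [Category.{w} C] [Abelian C]
    [Linear k C] [HasDerivedCategory.{w'} C] {R : DGAlg.{u, w} k} {K : CochainComplex C ℤ}
    {ρ : Action R K} (T : ObjectProperty (DerivedCategory C))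

/-- good triples -/
structure Good (X : GObj (HK (k := k) ρ)) : Prop where
  left : LOrth (Glue (HK (k := k) ρ)) SL X
  right : ROrth (Glue (HK (k := k) ρ)) (SR IsPerf) X
  perf : IsPerf X.P
  cls : T (Q.obj X.J.1)

variable {T}

lemma Good.shift [T.IsClosedUnderIsomorphisms] [T.IsStableUnderShift ℤ]
    {X : GObj (HK (k := k) ρ)} (h : Good T X) (n : ℤ) :
    ∃ Y : GObj (HK (k := k) ρ), Good T Y ∧ Y.P = Pool.Agent.N212.DG.shift X.P n ∧
      Y.J.1 = X.J.1⟦n⟧ ∧ Nonempty (ShiftData (Glue (HK (k := k) ρ)) X Y n (-n) (by lia)) := by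
  obtain ⟨P, ⟨J, hJ, hJ'⟩, u, hu⟩ := X
  refine ⟨gshift ⟨P, ⟨J, hJ, hJ'⟩, u, hu⟩ (modShift P n (-n) (by lia))
    (injShift J hJ n (-n) (by lia)), ⟨?_, ?_, ?_, ?_⟩, rfl, rfl, ⟨gshiftData _ _ _⟩⟩
  · exact LOrth.shift (gshiftData _ _ _) h.left
  · exact ROrth.shift (gshiftData _ _ _) h.right
  · exact IsPerf.shift _ _ h.perf
  · exact T_shift T J n h.cls

lemma Good.cone [T.IsClosedUnderIsomorphisms] [T.IsTriangulatedClosed₃]
    {X Z : GObj (HK (k := k) ρ)} (hX : Good T X) (hZ : Good T Z)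
    (f : (Glue (HK (k := k) ρ)).Hom X Z 0)
    (hf : (Glue (HK (k := k) ρ)).d 0 1 (zero_add 1) f = 0) (φ : X.J.1 ⟶ Z.J.1)
    (hφ : f.2.1 = (Cochain.ofHom φ : Cochain X.J.1 Z.J.1 0)) :
    ∃ Y : GObj (HK (k := k) ρ), Good T Y ∧ Y.P = Pool.Agent.N212.DG.cone f.1 (closed1 f hf) ∧
      Y.J.1 = mappingCone φ ∧ Nonempty (ConeData (Glue (HK (k := k) ρ)) f Y) := by
  have b : ConeData (BB k C) (X := X.J) (Z := Z.J) f.2.1
      (bb (mappingCone φ) (cone_kinj φ X.J.2.1 Z.J.2.1)) := by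
    rw [hφ]; exact injCone X.J.2.1 Z.J.2.1 φ
  have a := modCone f.1 (closed1 f hf)
  refine ⟨gcone f hf a b, ⟨?_, ?_, ?_, ?_⟩, rfl, rfl, ⟨gconeData f hf a b⟩⟩
  · exact LOrth.cone (gconeData f hf a b) hf hX.left hZ.left
  · exact ROrth.cone (gconeData f hf a b) hf hX.right hZ.right
  · exact IsPerf.cone _ _ f.1 (closed1 f hf) hX.perf hZ.perf
  · exact T_cone T φ hX.cls hZ.cls

lemma Good.retract [T.IsStableUnderRetracts]
    {X Y : GObj (HK (k := k) ρ)} (hX : Good T X) (c : RetData (Glue (HK (k := k) ρ)) X Y) :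
    Good T Y := by
  obtain ⟨i, hi⟩ := exists_hom (c.i.2.1 : Cochain Y.J.1 X.J.1 0) (congrArg (fun t => t.2.1) c.di)
  obtain ⟨p, hp⟩ := exists_hom (c.p.2.1 : Cochain X.J.1 Y.J.1 0) (congrArg (fun t => t.2.1) c.dp)
  refine ⟨LOrth.retract c hX.left, ROrth.retract c hX.right, ?_, ?_⟩
  · exact IsPerf.retract X.P Y.P c.i.1 c.p.1 c.s.1 (congrArg Prod.fst c.di)
      (congrArg Prod.fst c.dp) (congrArg Prod.fst c.ip) hX.perf
  · refine T.prop_of_retract ⟨Q.map i, Q.map p, ?_⟩ hX.cls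
    have h := congrArg (fun t => t.2.1) c.ip
    change (c.i.2.1 : Cochain Y.J.1 X.J.1 0).comp (c.p.2.1 : Cochain X.J.1 Y.J.1 0) (add_zero 0) =
      (Cochain.ofHom (𝟙 Y.J.1) : Cochain _ _ 0) + δ (-1) 0 (c.s.2.1 : Cochain Y.J.1 Y.J.1 (-1)) at h
    rw [hi, hp, ← Cochain.ofHom_comp] at h
    rw [← Q.map_comp, Q_eq _ _ _ h, Q.map_id]

variable [Limits.HasCountableProducts C]

lemma exists_fib {P : GObj (HK (k := k) ρ)} (g : (Glue (HK (k := k) ρ)).Hom P P 0)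
    (hg : (Glue (HK (k := k) ρ)).d 0 1 (zero_add 1) g = 0) :
    ∃ Y : GObj (HK (k := k) ρ), Nonempty (FibData (Glue (HK (k := k) ρ)) g Y) := by
  obtain ⟨φ, hφ⟩ := exists_hom (g.2.1 : Cochain P.J.1 P.J.1 0) (congrArg (fun t => t.2.1) hg)
  have b : ConeData (BB k C) (X := P.J) (Z := P.J) g.2.1
      (bb (mappingCone φ) (cone_kinj φ P.J.2.1 P.J.2.1)) := by
    rw [hφ]; exact injCone P.J.2.1 P.J.2.1 φ
  have a := modCone g.1 (closed1 g hg)
  exact ⟨_, fib_of_cone (gconeData g hg a b) (gshiftData _ (modShift _ (-1) 1 (by lia))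
    (injShift (mappingCone φ) (cone_kinj φ P.J.2.1 P.J.2.1) (-1) 1 (by lia)))⟩

lemma Good.split [T.IsStableUnderRetracts] {X : GObj (HK (k := k) ρ)} (hX : Good T X)
    (e : (Glue (HK (k := k) ρ)).Hom X X 0)
    (he : (Glue (HK (k := k) ρ)).d 0 1 (zero_add 1) e = 0)
    (s : (Glue (HK (k := k) ρ)).Hom X X (-1))
    (hs : (Glue (HK (k := k) ρ)).comp (add_zero 0) e e = e +
      (Glue (HK (k := k) ρ)).d (-1) 0 (by lia) s) :
    ∃ (Y : GObj (HK (k := k) ρ)) (a : (Glue (HK (k := k) ρ)).Hom X Y 0)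
      (b : (Glue (HK (k := k) ρ)).Hom Y X 0) (t : (Glue (HK (k := k) ρ)).Hom Y Y (-1)),
      Good T Y ∧ (Glue (HK (k := k) ρ)).d 0 1 (zero_add 1) a = 0 ∧
      (Glue (HK (k := k) ρ)).d 0 1 (zero_add 1) b = 0 ∧
      (Glue (HK (k := k) ρ)).comp (add_zero 0) a b = e ∧
      (Glue (HK (k := k) ρ)).comp (add_zero 0) b a = (Glue (HK (k := k) ρ)).one Y +
        (Glue (HK (k := k) ρ)).d (-1) 0 (by lia) t := by
  obtain ⟨P, ⟨pw⟩⟩ := exists_gpow X (modPow X.P) (injPow X.J.1 X.J.2.1) (homPow ρ X.J.1 X.J.2.1)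
    (fun i => rfl)
  obtain ⟨Y, a, b, t, da, db, hab, hba⟩ := Cusp.split e he s hs pw (fun g hg => exists_fib g hg)
  exact ⟨Y, a, b, t, hX.retract ⟨b, a, t, db, da, hba⟩, da, db, hab, hba⟩

end Pool.Agent.N99.Cusp
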