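import Pool.Agent.N99.Cusp.ModS

set_option autoImplicit false

/-!
K-injective complexes: shifts, cones, products; the functor `Hom(K, -)`.
-/

universe u v w v' w'

open CategoryTheory Pool.Agent.N212.DG CochainComplex CochainComplex.HomComplex

open scoped ZeroObject

namespace Pool.Agent.N99.Cusp

variable (k : Type u) [Field k] (C : Type v) [Category.{w} C] [Abelian C]
    [Linear k C] [HasDerivedCategory.{w'} C]

/-- The DG category of all K-injective complexes. -/
noncomputable abbrev BB : DGCat.{u, max v w, w} k := InjDG k C ⊤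

variable {k C}

/-- a K-injective complex as an object -/
abbrev bb (J : CochainComplex C ℤ) (hJ : J.IsKInjective) : (BB k C).Obj := ⟨J, hJ, trivial⟩

/-- shift data -/
noncomputable def injShift (J : CochainComplex C ℤ) (hJ : J.IsKInjective) (n m : ℤ)
    (h : m + n = 0) :
    ShiftData (BB k C) (bb J hJ) (bb (J⟦n⟧) inferInstance) n m h where
  s := (Cochain.ofHom (𝟙 J)).rightShift n m h
  t := (Cochain.ofHom (𝟙 (J⟦n⟧))).rightUnshift n (zero_add n)
  ds := by
    change δ m (m + 1) ((Cochain.ofHom (𝟙 J)).rightShift n m h) = 0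
    rw [Cochain.δ_rightShift _ n m (m + 1) h 1 (by lia), δ_ofHom, Cochain.rightShift_zero,
      smul_zero]
  dt := by
    change δ n (n + 1) ((Cochain.ofHom (𝟙 (J⟦n⟧))).rightUnshift n (zero_add n)) = 0
    rw [Cochain.δ_rightUnshift _ n (zero_add n) (n + 1) 1 (by lia), δ_ofHom,
      Cochain.rightUnshift_zero, smul_zero]
  st := by
    change ((Cochain.ofHom (𝟙 J)).rightShift n m h).comp
      ((Cochain.ofHom (𝟙 (J⟦n⟧))).rightUnshift n (zero_add n)) h = Cochain.ofHom (𝟙 J)
    rw [← Cochain.rightUnshift_comp _ _ (add_zero m) 0 h, Cochain.comp_id,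
      Cochain.rightUnshift_rightShift]
  ts := by
    change ((Cochain.ofHom (𝟙 (J⟦n⟧))).rightUnshift n (zero_add n)).comp
      ((Cochain.ofHom (𝟙 J)).rightShift n m h) (by lia) = Cochain.ofHom (𝟙 (J⟦n⟧))
    rw [← Cochain.rightShift_rightUnshift ((((Cochain.ofHom (𝟙 (J⟦n⟧))).rightUnshift n
      (zero_add n)).comp ((Cochain.ofHom (𝟙 J)).rightShift n m h)
        (by lia) : Cochain _ _ 0)) n (zero_add n),
      Cochain.rightUnshift_comp _ _ (by lia) n (zero_add n) 0 h, Cochain.rightUnshift_rightShift,
      Cochain.comp_id, Cochain.rightShift_rightUnshift]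

/-- a closed morphism of degree zero comes from a morphism of complexes -/
lemma exists_hom {J L : CochainComplex C ℤ} (f : Cochain J L 0) (hf : δ 0 1 f = 0) :
    ∃ φ : J ⟶ L, f = Cochain.ofHom φ := by
  obtain ⟨φ, hφ⟩ := (Cocycle.equivHom J L).surjective (Cocycle.mk f 1 rfl hf)
  exact ⟨φ, (congrArg Subtype.val hφ).symm⟩

lemma cone_kinj {J L : CochainComplex C ℤ} (φ : J ⟶ L) (hJ : J.IsKInjective)
    (hL : L.IsKInjective) : (mappingCone φ).IsKInjective := by
  rw [isKInjective_iff_rightOrthogonal] at hJ hL ⊢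
  exact ObjectProperty.ext_of_isTriangulatedClosed₃ _ _
    (HomotopyCategory.mappingCone_triangleh_distinguished φ) hJ hL

/-- cone data -/
noncomputable def injCone {J L : CochainComplex C ℤ} (hJ : J.IsKInjective)
    (hL : L.IsKInjective) (φ : J ⟶ L) :
    ConeData (BB k C) (X := bb J hJ) (Z := bb L hL) (Cochain.ofHom φ)
      (bb (mappingCone φ) (cone_kinj φ hJ hL)) where
  inl := mappingCone.inl φ
  inr := Cochain.ofHom (mappingCone.inr φ)
  fst := (mappingCone.fst φ).1
  snd := mappingCone.snd φ
  d_inr := δ_ofHom _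
  d_inl := by
    change δ (-1) 0 (mappingCone.inl φ) = (Cochain.ofHom φ).comp
      (Cochain.ofHom (mappingCone.inr φ)) (add_zero 0)
    rw [mappingCone.δ_inl, Cochain.ofHom_comp]
  d_fst := Cocycle.δ_eq_zero _ _
  d_snd := mappingCone.δ_snd φ
  inl_fst := mappingCone.inl_fst φ
  inr_snd := mappingCone.inr_snd φ
  inl_snd := mappingCone.inl_snd φ
  inr_fst := mappingCone.inr_fst φ
  id := mappingCone.id φ

section Prod

variable [Limits.HasCountableProducts C]

/-- countable power of a complex -/
noncomputable def powCx (J : CochainComplex C ℤ) : CochainComplex C ℤ where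
  X n := ∏ᶜ fun _ : ℕ => J.X n
  d i j := Limits.Pi.map fun _ => J.d i j
  shape i j h := by
    ext b
    simp [J.shape i j h]
  d_comp_d' i j l _ _ := by
    ext b
    simp

/-- the projections -/
noncomputable def powPr (J : CochainComplex C ℤ) (i : ℕ) : powCx J ⟶ J where
  f n := Limits.Pi.π (fun _ : ℕ => J.X n) i
  comm' p q _ := by
    simp [powCx]

/-- the cochain with given components -/
noncomputable def powL (J K : CochainComplex C ℤ) (n : ℤ) (f : ℕ → Cochain K J n) :
    Cochain K (powCx J) n :=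
  Cochain.mk fun p q h => Limits.Pi.lift fun i => (f i).v p q h

lemma powL_pr (J K : CochainComplex C ℤ) (n : ℤ) (f : ℕ → Cochain K J n) (i : ℕ) :
    (powL J K n f).comp (Cochain.ofHom (powPr J i)) (add_zero n) = f i := by
  ext p q h
  rw [powL, Cochain.comp_zero_cochain_v, Cochain.ofHom_v, Cochain.mk_v]
  exact Limits.Pi.lift_π (fun i => (f i).v p q h) i

lemma pow_lift (J K : CochainComplex C ℤ) (n : ℤ) (f : ℕ → Cochain K J n) :
    ∃ g : Cochain K (powCx J) n, ∀ i, g.comp (Cochain.ofHom (powPr J i)) (add_zero n) = f i :=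
  ⟨powL J K n f, powL_pr J K n f⟩

lemma pow_ext (J K : CochainComplex C ℤ) (n : ℤ) (f g : Cochain K (powCx J) n)
    (h : ∀ i, f.comp (Cochain.ofHom (powPr J i)) (add_zero n) =
      g.comp (Cochain.ofHom (powPr J i)) (add_zero n)) : f = g := by
  ext p q hpq
  refine Limits.Pi.hom_ext _ _ fun i => ?_
  have := Cochain.congr_v (h i) p q hpq
  rw [Cochain.comp_zero_cochain_v, Cochain.comp_zero_cochain_v, Cochain.ofHom_v] at this
  exact this

lemma pow_kinj (J : CochainComplex C ℤ) (hJ : J.IsKInjective) : (powCx J).IsKInjective where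
  nonempty_homotopy_zero {K} f hK := by
    have h1 : ∀ i, ∃ α : Cochain K J (-1), δ (-1) 0 α =
        (Cochain.ofHom (f ≫ powPr J i) : Cochain K J 0) := fun i =>
      IsKInjective.eq_δ_of_cocycle (Cocycle.ofHom (f ≫ powPr J i)) hK (-1) (by lia)
    choose α hα using h1
    obtain ⟨β, hβ⟩ := pow_lift J K (-1) α
    refine ⟨(Cochain.equivHomotopy f 0).symm ⟨β, ?_⟩⟩
    rw [Cochain.ofHom_zero, add_zero]
    apply pow_ext
    intro i
    rw [← Cochain.ofHom_comp, ← hα, ← hβ, δ_comp_zero_cochain _ _ _ (by lia), δ_ofHom,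
      Cochain.comp_zero, zero_add]

/-- the power in the DG category -/
noncomputable def injPow (J : CochainComplex C ℤ) (hJ : J.IsKInjective) :
    PowData (BB k C) (bb J hJ) (bb (powCx J) (pow_kinj J hJ)) where
  pr i := Cochain.ofHom (powPr J i)
  d_pr i := δ_ofHom _
  exists_lift Z n f := pow_lift J Z.1 n f
  ext Z n f g h := pow_ext J Z.1 n f g h

end Prod

lemma zero_kinj : (0 : CochainComplex C ℤ).IsKInjective where
  nonempty_homotopy_zero {K} f _ := by
    obtain rfl : f = 0 := (Limits.isZero_zero _).eq_of_tgt _ _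
    exact ⟨Homotopy.refl 0⟩

lemma inj_zero : (BB k C).one (bb 0 zero_kinj) = 0 := by
  change (Cochain.ofHom (𝟙 (0 : CochainComplex C ℤ)) : Cochain _ _ 0) = 0
  rw [(Limits.isZero_zero (CochainComplex C ℤ)).eq_of_tgt (𝟙 _) 0, Cochain.ofHom_zero]

section Hom

variable {R : DGAlg.{u, w} k} {K : CochainComplex C ℤ} (ρ : Action R K)

/-- the DG module `Hom(K, J)` -/
noncomputable def homMod (J : CochainComplex C ℤ) : DGMod.{u, w, w} R where
  M n := Cochain K J n
  d p q _ := δ_hom k K J p q
  act {p q r} h := LinearMap.mk₂ k (fun φ a => (ρ.act q a).comp φ (by lia))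
    (fun _ _ _ => Cochain.comp_add ..) (fun _ _ _ => Cochain.comp_smul ..)
    (fun φ a b => by rw [map_add]; exact Cochain.add_comp ..)
    (fun c φ a => by rw [map_smul]; exact Cochain.smul_comp ..)
  act_one {p} m := by
    change (ρ.act 0 R.one).comp m (by lia) = m
    rw [ρ.act_one, Cochain.id_comp]
  assoc {p q r pq qr pqr} h₁ h₂ h₃ h₄ m a b := by
    change (ρ.act r b).comp ((ρ.act q a).comp m (by lia : q + p = pq)) (by lia : r + pq = pqr) =
      (ρ.act qr (R.mul h₂ a b)).comp m (by lia)
    rw [ρ.act_mul, Cochain.comp_assoc _ _ _ (by lia) (show q + p = pq by lia) (by lia)]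
  d_d h₁ h₂ m := δ_δ _ _ _ m
  d_act {p q r p' q' r'} h hp hq hr h₁ h₂ m a := by
    change δ r r' ((ρ.act q a).comp m (by lia : q + p = r)) =
      (ρ.act q a).comp (δ p p' m) (by lia) +
      p.negOnePow • (ρ.act q' (R.d q q' hq a)).comp m (by lia)
    rw [ρ.act_d, δ_comp _ _ _ _ _ _ hr hq hp]

/-- composition with a cochain -/
noncomputable def post {J L : CochainComplex C ℤ} {n : ℤ} (f : Cochain J L n) :
    DGMod.Mor (homMod ρ J) (homMod ρ L) n :=
  mk (homMod ρ J) (homMod ρ L) n
    (fun p q h =>
      { toFun := fun z => Cochain.comp (F := K) z f h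
        map_add' := fun _ _ => Cochain.add_comp ..
        map_smul' := fun _ _ => Cochain.smul_comp .. })
    (by
      intro p r s q q' h h₁ h₂ h₃ m a
      change Cochain.comp ((ρ.act r a).comp m (by lia : r + p = s)) f h₂ =
        (ρ.act r a).comp (Cochain.comp m f h) (by lia)
      rw [Cochain.comp_assoc _ _ _ (by lia) h (by lia)])

lemma ev_post {J L : CochainComplex C ℤ} {n : ℤ} (f : Cochain J L n) (p q : ℤ) (h : p + n = q)
    (x : Cochain K J p) : ev (post ρ f) p q h x = Cochain.comp x f h := rfl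

lemma hom_d {J : CochainComplex C ℤ} {p q : ℤ} (h : p + 1 = q) (x : Cochain K J p) :
    (homMod ρ J).d p q h x = δ p q x := rfl

/-- the DG functor `Hom(K, -)` -/
noncomputable def HK : DGFun (BB k C) (ModDG.{u, w, w} R) where
  obj J := homMod ρ J.1
  map {J L n} :=
    { toFun := fun f => post ρ f
      map_add' := by
        intro f g
        apply ev_ext
        intro p q h x
        change ev (post ρ (f + g)) p q h x = ev (post ρ f) p q h x + ev (post ρ g) p q h x
        rw [ev_post, ev_post, ev_post]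
        exact Cochain.comp_add ..
      map_smul' := by
        intro c f
        apply ev_ext
        intro p q h x
        change ev (post ρ (c • f)) p q h x = c • ev (post ρ f) p q h x
        rw [ev_post, ev_post]
        exact Cochain.comp_smul .. }
  map_d {J L p q} h f := by
    apply ev_ext
    intro a b hab x
    obtain ⟨c, hc⟩ : ∃ c, a + p = c := ⟨_, rfl⟩
    obtain ⟨a', ha'⟩ : ∃ a', a + 1 = a' := ⟨_, rfl⟩
    rw [mod_d, ev_del h _ a b c a' hab hc (by lia) ha' (by lia)]
    change ev (post ρ (δ p q f)) _ _ _ x = (homMod ρ L.1).d _ _ _ (ev (post ρ f) _ _ _ x) +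
      q.negOnePow • ev (post ρ f) _ _ _ ((homMod ρ J.1).d _ _ _ x)
    rw [ev_post, ev_post, ev_post, hom_d, hom_d,
      δ_comp _ _ _ _ _ _ (by lia) ha' h, negOne_succ h, Units.neg_smul]
    exact (add_neg_cancel_right _ _).symm
  map_comp {J L N p q r} h f g := by
    apply ev_ext
    intro a b hab x
    rw [mod_comp, ev_cmp _ _ _ a b (a + p) hab rfl (by lia)]
    change ev (post ρ (Cochain.comp f g h)) _ _ _ x = ev (post ρ g) _ _ _ (ev (post ρ f) _ _ _ x)
    rw [ev_post, ev_post, ev_post]
    exact (Cochain.comp_assoc x f g rfl h (by lia)).symm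
  map_one J := by
    apply ev_ext
    intro a b hab x
    obtain rfl : b = a := by lia
    change ev (post ρ (Cochain.ofHom (𝟙 J.1))) _ _ _ x = x
    rw [ev_post, Cochain.comp_id]

/-- powers are preserved -/
noncomputable def homPow [Limits.HasCountableProducts C] (J : CochainComplex C ℤ)
    (hJ : J.IsKInjective) :
    PowData (ModDG.{u, w, w} R) ((HK ρ).obj (bb J hJ)) ((HK ρ).obj (bb (powCx J) (pow_kinj J hJ)))
    where
  pr i := (HK ρ).map ((injPow J hJ).pr i)
  d_pr i := map_closed _ _ _ ((injPow J hJ).d_pr i)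
  exists_lift Z n f := by
    refine ⟨mk Z (homMod ρ (powCx J)) n (fun p q h =>
      { toFun := fun x => powL J K q (fun i => ev (f i) p q h x)
        map_add' := ?_
        map_smul' := ?_ }) ?_, ?_⟩
    · intro x y
      apply pow_ext
      intro i
      refine (powL_pr J K q _ i).trans ?_
      refine Eq.trans ?_ (Cochain.add_comp _ _ _ _).symm
      rw [powL_pr, powL_pr, map_add]
      rfl
    · intro c x
      apply pow_ext
      intro i
      refine (powL_pr J K q _ i).trans ?_
      refine Eq.trans ?_ (Cochain.smul_comp _ _ _ _).symm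
      rw [powL_pr, map_smul]
      rfl
    · intro p r s q q' h h₁ h₂ h₃ x a
      change powL J K q' (fun i => ev (f i) s q' h₂ (Z.act h₁ x a)) =
        (ρ.act r a).comp (powL J K q (fun i => ev (f i) p q h x)) (by lia)
      apply pow_ext
      intro i
      rw [powL_pr, Cochain.comp_assoc_of_third_is_zero_cochain, powL_pr]
      exact ev_act (f i) h h₁ h₂ h₃ x a
    · intro i
      apply ev_ext
      intro p q h x
      rw [mod_comp, ev_cmp _ _ _ p q q h h (by lia)]
      exact powL_pr J K q (fun i => ev (f i) p q h x) i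
  ext Z n f g h := by
    apply ev_ext
    intro p q hpq x
    apply pow_ext
    intro i
    have h1 := congrArg (fun t => ev t p q hpq x) (h i)
    simp only [mod_comp] at h1
    rw [ev_cmp _ _ _ p q q hpq hpq (by lia), ev_cmp _ _ _ p q q hpq hpq (by lia)] at h1
    exact h1

end Hom

end Pool.Agent.N99.Cusp
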