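import Pool.Agent.N99.Cusp.Good

set_option autoImplicit false

/-!
DG Morita theory: the main theorem.
-/

universe u v w v' w'

open CategoryTheory Pool.Agent.N212.DG CochainComplex CochainComplex.HomComplex DerivedCategory

open scoped ZeroObject

namespace Pool.Agent.N99.Cusp

variable {k : Type u} [Field k] {C : Type v} [Category.{w} C] [Abelian C]
    [Linear k C] [HasDerivedCategory.{w'} C] {R : DGAlg.{u, w} k} {K : CochainComplex C ℤ}
    {ρ : Action R K} {T : ObjectProperty (DerivedCategory C)}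

lemma sq_one (D : DGCat.{u, v, w} k) {X : D.Obj} (θ : D.Hom X X 0) (s : D.Hom X X (-1))
    (dθ : D.d 0 1 (zero_add 1) θ = 0) (h : θ = D.one X + D.d (-1) 0 (by lia) s) :
    ∃ r : D.Hom X X (-1), D.comp (add_zero 0) θ θ = D.one X + D.d (-1) 0 (by lia) r := by
  refine ⟨s + D.comp (add_zero (-1)) s θ, ?_⟩
  rw [map_add, d_comp_closed D (p := -1) (q := 0) (r := -1) (p' := 0) (q' := 1) (r' := 0)
        (by lia) (by lia) (by lia) (by lia) (by lia) s θ dθ, Int.negOnePow_zero, one_smul,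
        ← add_assoc, ← h]
  have e : D.d (-1) 0 (by lia) s = θ - D.one X := by rw [h]; abel
  rw [e, map_sub, LinearMap.sub_apply, D.one_comp]
  abel

/-- every perfect module is the first component of a good triple -/
lemma exists_good [Limits.HasCountableProducts C] [T.IsStableUnderRetracts] [T.IsTriangulated]
    (X₀ : GObj (HK (k := k) ρ)) (h₀ : Good T X₀) (hP : X₀.P = free R) (P : DGMod.{u, w, w} R)
    (h : IsPerf P) : ∃ X : GObj (HK (k := k) ρ), Good T X ∧ X.P = P := by
  induction h with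
  | free => exact ⟨X₀, h₀, hP⟩
  | shift M n _ ih =>
    obtain ⟨X, hX, rfl⟩ := ih
    obtain ⟨Y, hY, hYP, -, -⟩ := hX.shift n
    exact ⟨Y, hY, hYP⟩
  | cone M N f hf _ _ ih₁ ih₂ =>
    obtain ⟨X, hX, rfl⟩ := ih₁
    obtain ⟨Z, hZ, rfl⟩ := ih₂
    obtain ⟨F, hF, rfl⟩ := lift_M (X := X) (X' := Z) (mod_zero R) hX.left (zero_add 1) f hf
    obtain ⟨φ, hφ⟩ := exists_hom (F.2.1 : Cochain X.J.1 Z.J.1 0) (congrArg (fun t => t.2.1) hF)
    obtain ⟨Y, hY, hYP, -, -⟩ := hX.cone hZ F hF φ hφ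
    exact ⟨Y, hY, hYP⟩
  | retract M N i p s di dp ip _ ih =>
    obtain ⟨X, hX, rfl⟩ := ih
    let D := ModDG.{u, w, w} R
    let i' : D.Hom N X.P 0 := i
    let p' : D.Hom X.P N 0 := p
    let s' : D.Hom N N (-1) := s
    have di' : D.d 0 1 (zero_add 1) i' = 0 := di
    have dp' : D.d 0 1 (zero_add 1) p' = 0 := dp
    have ip' : D.comp (add_zero 0) i' p' = D.one N + D.d (-1) 0 (by lia) s' := ip
    -- the idempotent
    obtain ⟨e, he⟩ : ∃ e, e = D.comp (add_zero 0) p' i' := ⟨_, rfl⟩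
    have de : D.d 0 1 (zero_add 1) e = 0 := by
      rw [he]; exact comp_closed D _ (zero_add 1) (zero_add 1) _ _ _ dp' di'
    have hee : D.d (-1) 0 (by lia) (D.comp (zero_add (-1)) p' (D.comp (add_zero (-1)) s' i')) =
        D.comp (add_zero 0) e e - e := by
      rw [d_closed_comp D (p := 0) (q := -1) (r := -1) (p' := 1) (q' := 0) (r' := 0)
        (by lia) (by lia) (by lia) (by lia) (by lia) p' _ dp',
        d_comp_closed D (p := -1) (q := 0) (r := -1) (p' := 0) (q' := 1) (r' := 0)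
        (by lia) (by lia) (by lia) (by lia) (by lia) s' i' di', Int.negOnePow_zero, one_smul]
      have h1 : D.d (-1) 0 (by lia) s' = D.comp (add_zero 0) i' p' - D.one N := by
        rw [ip']; abel
      rw [h1, map_sub, LinearMap.sub_apply, D.one_comp, map_sub, he,
        D.assoc (add_zero 0) (add_zero 0) (add_zero 0) (add_zero 0),
        D.assoc (add_zero 0) (add_zero 0) (add_zero 0) (add_zero 0)]
    obtain ⟨E, dE, hE⟩ := lift_M (X := X) (X' := X) (mod_zero R) hX.left (zero_add 1) e de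
    have dEE : (Glue (HK (k := k) ρ)).d 0 1 (zero_add 1)
        ((Glue (HK (k := k) ρ)).comp (add_zero 0) E E - E) = 0 := by
      rw [map_sub, dE, comp_closed _ (add_zero 0) (zero_add 1) (zero_add 1) (zero_add 1) E E dE dE,
        sub_zero]
    obtain ⟨S, hS, -⟩ := inj_M (X := X) (X' := X) (mod_zero R) hX.left (p := -1) (q := 0) (r := 1)
      (by lia) (by lia) _ dEE _ (by
        rw [hee, ← hE]; rfl)
    obtain ⟨Y, a, b, t, hY, da, db, hab, hba⟩ := hX.split E dE S (by rw [hS]; abel)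
    have da1 : D.d 0 1 (zero_add 1) a.1 = 0 := congrArg Prod.fst da
    have db1 : D.d 0 1 (zero_add 1) b.1 = 0 := congrArg Prod.fst db
    have hab1 : D.comp (add_zero 0) a.1 b.1 = e := (congrArg Prod.fst hab).trans hE
    have hba1 : D.comp (add_zero 0) b.1 a.1 = D.one Y.P + D.d (-1) 0 (by lia) t.1 :=
      congrArg Prod.fst hba
    obtain ⟨r₁, hr₁⟩ := sq_one D (D.comp (add_zero 0) i' p') s'
      (comp_closed D _ (zero_add 1) (zero_add 1) _ _ _ di' dp') ip'
    obtain ⟨r₂, hr₂⟩ := sq_one D (D.comp (add_zero 0) b.1 a.1) t.1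
      (comp_closed D _ (zero_add 1) (zero_add 1) _ _ _ db1 da1) hba1
    obtain ⟨Z, hZP, ⟨c⟩⟩ := replace (mod_zero R) hY.left (P := N)
      (D.comp (add_zero 0) i' a.1) (D.comp (add_zero 0) b.1 p') r₁ r₂
      (comp_closed D _ (zero_add 1) (zero_add 1) _ _ _ di' da1)
      (comp_closed D _ (zero_add 1) (zero_add 1) _ _ _ db1 dp') (by
        rw [← hr₁, D.assoc (add_zero 0) (add_zero 0) (add_zero 0) (add_zero 0),
          ← D.assoc (add_zero 0) (add_zero 0) (add_zero 0) (add_zero 0) a.1 b.1 p', hab1, he,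
          D.assoc (add_zero 0) (add_zero 0) (add_zero 0) (add_zero 0) i' p',
          D.assoc (add_zero 0) (add_zero 0) (add_zero 0) (add_zero 0) p' i']) (by
        rw [← hr₂, D.assoc (add_zero 0) (add_zero 0) (add_zero 0) (add_zero 0),
          ← D.assoc (add_zero 0) (add_zero 0) (add_zero 0) (add_zero 0) p' i' a.1, ← he, ← hab1,
          D.assoc (add_zero 0) (add_zero 0) (add_zero 0) (add_zero 0) b.1 a.1,
          D.assoc (add_zero 0) (add_zero 0) (add_zero 0) (add_zero 0) a.1 b.1])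
    exact ⟨Z, hY.retract c, hZP⟩

end Pool.Agent.N99.Cusp
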