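import Pool.Agent.N99.Cusp.Main

set_option autoImplicit false

/-!
DG Morita theory: the main theorem.
-/

universe u v w v' w'

open CategoryTheory Pool.Agent.N212.DG CochainComplex CochainComplex.HomComplex DerivedCategory

open scoped ZeroObject

namespace Pool.Agent.N99.Cusp

variable {k : Type u} [Field k] {C : Type v} [Category.{w} C] [Abelian C]
    [Linear k C] [HasDerivedCategory.{w'} C] {R : DGAlg.{u, w} k} {K : CochainComplex C ℤ}
    (ρ : Action R K) (T : ObjectProperty (DerivedCategory C))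

/-- objects of the derived category which come from good triples -/
def Psi : ObjectProperty (DerivedCategory C) := fun X =>
  ∃ Y : GObj (HK (k := k) ρ), Good T Y ∧ Nonempty (X ≅ Q.obj Y.J.1)

instance : (Psi ρ T).IsClosedUnderIsomorphisms where
  of_iso := by
    rintro X X' e ⟨Y, hY, ⟨f⟩⟩
    exact ⟨Y, hY, ⟨e.symm ≪≫ f⟩⟩

instance [Limits.HasCountableProducts C] [T.IsStableUnderRetracts] :
    (Psi ρ T).IsStableUnderRetracts where
  of_retract := by
    rintro X X' c ⟨Y, hY, ⟨f⟩⟩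
    have := Y.J.2.1
    -- the inclusion and projection
    obtain ⟨i, hi⟩ : ∃ i : X ⟶ Q.obj Y.J.1, i = c.i ≫ f.hom := ⟨_, rfl⟩
    obtain ⟨p, hp⟩ : ∃ p : Q.obj Y.J.1 ⟶ X, p = f.inv ≫ c.r := ⟨_, rfl⟩
    have hip : i ≫ p = 𝟙 X := by
      rw [hi, hp, Category.assoc, Iso.hom_inv_id_assoc, c.retract]
    obtain ⟨ε, hε⟩ := Q_surj (p ≫ i)
    have hεε : Q.map (ε ≫ ε) = Q.map ε := by
      rw [Q.map_comp, hε, Category.assoc, reassoc_of% hip]
    obtain ⟨s, hs⟩ := Q_inj hεε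
    obtain ⟨E, dE, hE⟩ := lift_B (X := Y) (X' := Y) inj_zero hY.perf hY.right (zero_add 1)
      (Cochain.ofHom ε : Cochain Y.J.1 Y.J.1 0) (δ_ofHom _)
    have dEE : (Glue (HK (k := k) ρ)).d 0 1 (zero_add 1)
        ((Glue (HK (k := k) ρ)).comp (add_zero 0) E E - E) = 0 := by
      rw [map_sub, dE, comp_closed _ (add_zero 0) (zero_add 1) (zero_add 1) (zero_add 1) E E dE dE,
        sub_zero]
    obtain ⟨S, hS, -⟩ := inj_B (X := Y) (X' := Y) inj_zero hY.perf hY.right (p := -1) (q := 0)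
      (r := 1) (by lia) (by lia) _ dEE s (by
        have h5 : (BB k C).d (X := Y.J) (Y := Y.J) (-1) 0 (by lia) s =
            (BB k C).comp (add_zero 0) E.2.1 E.2.1 - E.2.1 := by
          rw [hE]
          change δ (-1) 0 s = (Cochain.ofHom ε).comp (Cochain.ofHom ε) (add_zero 0) -
            Cochain.ofHom ε
          rw [← Cochain.ofHom_comp, hs]
          abel
        exact h5)
    obtain ⟨Z, a, b, t, hZ, da, db, hab, hba⟩ := hY.split E dE S (by rw [hS]; abel)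
    obtain ⟨α, hα⟩ := exists_hom (a.2.1 : Cochain Y.J.1 Z.J.1 0) (congrArg (fun t => t.2.1) da)
    obtain ⟨β, hβ⟩ := exists_hom (b.2.1 : Cochain Z.J.1 Y.J.1 0) (congrArg (fun t => t.2.1) db)
    have h1 : Q.map α ≫ Q.map β = p ≫ i := by
      have h := congrArg (fun t => t.2.1) hab
      change (a.2.1 : Cochain Y.J.1 Z.J.1 0).comp (b.2.1 : Cochain Z.J.1 Y.J.1 0) (add_zero 0) =
        E.2.1 at h
      rw [hα, hβ, hE, ← Cochain.ofHom_comp] at h
      rw [← Q.map_comp, Cochain.ofHom_injective h, hε]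
    have h2 : Q.map β ≫ Q.map α = 𝟙 _ := by
      have h := congrArg (fun t => t.2.1) hba
      change (b.2.1 : Cochain Z.J.1 Y.J.1 0).comp (a.2.1 : Cochain Y.J.1 Z.J.1 0) (add_zero 0) =
        (Cochain.ofHom (𝟙 Z.J.1) : Cochain _ _ 0) + δ (-1) 0 (t.2.1 : Cochain Z.J.1 Z.J.1 (-1)) at h
      rw [hα, hβ, ← Cochain.ofHom_comp] at h
      rw [← Q.map_comp, Q_eq _ _ _ h, Q.map_id]
    refine ⟨Z, hZ, ⟨⟨i ≫ Q.map α, Q.map β ≫ p, ?_, ?_⟩⟩⟩
    · rw [Category.assoc, ← Category.assoc (Q.map α), h1, Category.assoc, hip,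
        Category.comp_id, hip]
    · rw [Category.assoc, ← Category.assoc p, ← h1, Category.assoc, h2, Category.comp_id, h2]

lemma psi_shift [T.IsClosedUnderIsomorphisms] [T.IsStableUnderShift ℤ] :
    (Psi ρ T).IsStableUnderShift ℤ where
  isStableUnderShiftBy n :=
    { le_shift := by
        rintro X ⟨Y, hY, ⟨f⟩⟩
        obtain ⟨Z, hZ, -, hZJ, -⟩ := hY.shift n
        refine ⟨Z, hZ, ⟨?_⟩⟩
        rw [hZJ]
        exact (CategoryTheory.shiftFunctor _ n).mapIso f ≪≫ ((Q.commShiftIso n).app Y.J.1).symm }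

lemma psi_cone [T.IsClosedUnderIsomorphisms] [T.IsTriangulatedClosed₃] :
    (Psi ρ T).IsTriangulatedClosed₃ :=
  ObjectProperty.IsTriangulatedClosed₃.mk' (by
    rintro S hS ⟨X, hX, ⟨e₁⟩⟩ ⟨Y, hY, ⟨e₂⟩⟩
    have := Y.J.2.1
    obtain ⟨φ, ⟨e₃⟩⟩ := exists_cone_iso S hS e₁ e₂
    obtain ⟨F, dF, hF⟩ := lift_B (X := X) (X' := Y) inj_zero hX.perf hY.right (zero_add 1)
      (Cochain.ofHom φ : Cochain X.J.1 Y.J.1 0) (δ_ofHom _)
    obtain ⟨Z, hZ, -, hZJ, -⟩ := hX.cone hY F dF φ hF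
    refine ⟨Z, hZ, ⟨?_⟩⟩
    rw [hZJ]
    exact e₃)

/-- every object in the thick closure comes from a good triple -/
lemma envelope_le [Limits.HasCountableProducts C] {I : CochainComplex C ℤ} (hI : I.IsKInjective)
    [T.IsStableUnderRetracts] [T.IsTriangulated]
    (X₀ : GObj (HK (k := k) ρ)) (h₀ : Good T X₀) (hJ : X₀.J.1 = I) :
    (ObjectProperty.ofObj fun _ : Unit => Q.obj I).triangEnvelope ≤ Psi ρ T := by
  have := psi_shift ρ T
  have := psi_cone ρ T
  have : (Psi ρ T).IsTriangulatedClosed₂ :=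
    ObjectProperty.IsTriangulatedClosed₂.of_isTriangulatedClosed₃
  have h1 : Psi ρ T (Q.obj I) := ⟨X₀, h₀, ⟨by rw [hJ]⟩⟩
  have : (Psi ρ T).ContainsZero := ⟨⟨0, Limits.isZero_zero _,
    (Psi ρ T).prop_of_retract ⟨0, 0, (Limits.isZero_zero _).eq_of_src _ _⟩ h1⟩⟩
  have : (Psi ρ T).IsTriangulated := {}
  rw [ObjectProperty.triangEnvelope_le_iff, ObjectProperty.ofObj_le_iff]
  exact fun _ => h1

end Pool.Agent.N99.Cusp
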