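import Pool.Agent.N99.Cusp.Rel

set_option autoImplicit false

/-!
Shifts, cones, products of DG modules.
-/

universe u v w v' w'

open Pool.Agent.N212.DG

namespace Pool.Agent.N99.Cusp

variable {k : Type u} [Field k] {R : DGAlg.{u, w} k}

lemma mod_d {X Y : DGMod.{u, v, w} R} {p q : ℤ} (h : p + 1 = q) (f : DGMod.Mor X Y p) :
    (ModDG R).d (X := X) (Y := Y) p q h f = del X Y p q h f := rfl

lemma mod_comp {X Y Z : DGMod.{u, v, w} R} {p q r : ℤ} (h : p + q = r) (f : DGMod.Mor X Y p)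
    (g : DGMod.Mor Y Z q) :
    (ModDG R).comp (X := X) (Y := Y) (Z := Z) h f g = cmp X Y Z p q r h f g := rfl

lemma mod_one (X : DGMod.{u, v, w} R) : (ModDG R).one X = idm X := rfl

/-- the identity to the shift -/
def shS (X : DGMod.{u, v, w} R) (n m : ℤ) (h : m + n = 0) :
    DGMod.Mor X (shift X n) m :=
  mk X (shift X n) m (fun p q h' => cst (by lia : p = q + n)) (by
    intro p r s q q' h' h₁ h₂ h₃ x a
    obtain rfl : p = q + n := by lia
    obtain rfl : s = q' + n := by lia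
    rfl)

lemma ev_shS (X : DGMod.{u, v, w} R) (n m : ℤ) (h : m + n = 0) (q : ℤ) (h' : q + n + m = q)
    (x : X.M (q + n)) : ev (shS X n m h) (q + n) q h' x = x := rfl

/-- the identity from the shift -/
def shT (X : DGMod.{u, v, w} R) (n : ℤ) :
    DGMod.Mor (shift X n) X n :=
  mk (shift X n) X n (fun p q h' => cst (V := X.M) (by lia : p + n = q)) (by
    intro p r s q q' h' h₁ h₂ h₃ x a
    obtain rfl : p + n = q := by lia
    obtain rfl : s + n = q' := by lia
    rfl)

lemma ev_shT (X : DGMod.{u, v, w} R) (n : ℤ) (p : ℤ) (h' : p + n = p + n)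
    (x : X.M (p + n)) : ev (shT X n) p (p + n) h' x = x := rfl

/-- shift data for DG modules -/
def modShift (X : DGMod.{u, v, w} R) (n m : ℤ) (h : m + n = 0) :
    ShiftData (ModDG R) X (shift X n) n m h where
  s := shS X n m h
  t := shT X n
  ds := by
    apply ev_ext
    intro p q h' x
    obtain ⟨c, rfl⟩ : ∃ c, p = c + n := ⟨p - n, by lia⟩
    obtain rfl : q = c + 1 := by lia
    rw [mod_d, ev_del rfl _ (c + n) (c + 1) c (c + 1 + n) (by lia) (by lia) rfl (by lia) (by lia), ev_shS,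
      ev_shS]
    change n.negOnePow • X.d (c + n) (c + 1 + n) _ x + (m + 1).negOnePow • X.d _ _ _ x = 0
    obtain rfl : m = - n := by lia
    rw [Int.negOnePow_add, Int.negOnePow_neg, Int.negOnePow_one, mul_neg, mul_one, Units.neg_smul]
    exact add_neg_cancel _
  dt := by
    apply ev_ext
    intro p q h' x
    obtain rfl : q = p + 1 + n := by lia
    rw [mod_d, ev_del rfl _ p (p + 1 + n) (p + n) (p + 1) (by lia) (by lia) (by lia) (by lia) (by lia),
      ev_shT, ev_shT]
    change X.d (p + n) (p + 1 + n) _ x + (n + 1).negOnePow • (n.negOnePow • X.d _ _ _ x) = 0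
    rw [Int.negOnePow_add, Int.negOnePow_one, mul_neg, mul_one, Units.neg_smul, smul_smul,
      Int.units_mul_self, one_smul, add_neg_cancel]
  st := by
    apply ev_ext
    intro p q h' x
    obtain ⟨c, rfl⟩ : ∃ c, p = c + n := ⟨p - n, by lia⟩
    obtain rfl : q = c + n := by lia
    rw [mod_comp, mod_one, ev_cmp _ _ _ (c + n) (c + n) c (by lia) (by lia) (by lia), ev_shS, ev_shT, ev_idm]
  ts := by
    apply ev_ext
    intro p q h' x
    obtain rfl : q = p := by lia
    rw [mod_comp, mod_one, ev_cmp _ _ _ q q (q + n) (by lia) (by lia) (by lia), ev_shT, ev_shS, ev_idm]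

section

variable {X Z : DGMod.{u, v, w} R} (f : DGMod.Mor X Z 0) (hf : del X Z 0 1 rfl f = 0)

/-- inclusion -/
def cInl : DGMod.Mor X (cone f hf) (-1) :=
  mk X (cone f hf) (-1) (fun p q h' => LinearMap.inr k (Z.M q) (X.M (q + 1)) ∘ₗ
    cst (by lia : p = q + 1)) (by
    intro p r s q q' h' h₁ h₂ h₃ x a
    obtain rfl : p = q + 1 := by lia
    obtain rfl : s = q' + 1 := by lia
    refine Prod.ext ?_ rfl
    change (0 : Z.M q') = Z.act h₃ 0 a
    rw [map_zero, LinearMap.zero_apply])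

lemma ev_cInl (q : ℤ) (h' : q + 1 + -1 = q) (x : X.M (q + 1)) :
    ev (cInl f hf) (q + 1) q h' x = ((0, x) : Z.M q × X.M (q + 1)) := rfl

/-- inclusion -/
def cInr : DGMod.Mor Z (cone f hf) 0 :=
  mk Z (cone f hf) 0 (fun p q h' => LinearMap.inl k (Z.M q) (X.M (q + 1)) ∘ₗ
    cst (by lia : p = q)) (by
    intro p r s q q' h' h₁ h₂ h₃ x a
    obtain rfl : p = q := by lia
    obtain rfl : s = q' := by lia
    refine Prod.ext rfl ?_
    have e : X.act (show p + 1 + r = s + 1 by lia) 0 a = 0 := by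
      rw [map_zero, LinearMap.zero_apply]
    exact e.symm)

lemma ev_cInr (q : ℤ) (h' : q + 0 = q) (x : Z.M q) :
    ev (cInr f hf) q q h' x = ((x, 0) : Z.M q × X.M (q + 1)) := rfl

/-- projection -/
def cFst : DGMod.Mor (cone f hf) X 1 :=
  mk (cone f hf) X 1 (fun p q h' => cst (V := X.M) (by lia : p + 1 = q) ∘ₗ
    LinearMap.snd k (Z.M p) (X.M (p + 1))) (by
    intro p r s q q' h' h₁ h₂ h₃ x a
    obtain rfl : p + 1 = q := by lia
    obtain rfl : s + 1 = q' := by lia
    rfl)

lemma ev_cFst (p : ℤ) (h' : p + 1 = p + 1) (x : Z.M p × X.M (p + 1)) :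
    ev (cFst f hf) p (p + 1) h' x = x.2 := rfl

/-- projection -/
def cSnd : DGMod.Mor (cone f hf) Z 0 :=
  mk (cone f hf) Z 0 (fun p q h' => cst (V := Z.M) (by lia : p = q) ∘ₗ
    LinearMap.fst k (Z.M p) (X.M (p + 1))) (by
    intro p r s q q' h' h₁ h₂ h₃ x a
    obtain rfl : p = q := by lia
    obtain rfl : s = q' := by lia
    rfl)

lemma ev_cSnd (p : ℤ) (h' : p + 0 = p) (x : Z.M p × X.M (p + 1)) :
    ev (cSnd f hf) p p h' x = x.1 := rfl

/-- cone data for DG modules -/
def modCone : ConeData (ModDG R) (X := X) (Z := Z) f (cone f hf) where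
  inl := cInl f hf
  inr := cInr f hf
  fst := cFst f hf
  snd := cSnd f hf
  d_inr := by
    apply ev_ext
    intro p q h' x
    obtain rfl : q = p + 1 := by lia
    rw [mod_d, ev_del _ _ p (p + 1) p (p + 1) (by lia) (by lia) rfl rfl (by lia), ev_cInr, ev_cInr,
      Int.negOnePow_one, Units.neg_smul, one_smul]
    refine Prod.ext ?_ ?_
    · change Z.d _ _ _ x + ev f _ _ _ 0 + -Z.d _ _ _ x = 0
      rw [map_zero, add_zero, add_neg_cancel]
    · change -X.d _ _ _ 0 + -0 = (0 : X.M _)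
      rw [map_zero, neg_zero, add_zero]
  d_inl := by
    apply ev_ext
    intro p q h' x
    obtain ⟨c, rfl⟩ : ∃ c, p = c + 1 := ⟨p - 1, by lia⟩
    obtain rfl : q = c + 1 := by lia
    rw [mod_d, mod_comp, ev_del _ _ (c + 1) (c + 1) c (c + 1 + 1) (by lia) (by lia) rfl rfl (by lia), ev_cInl,
      ev_cInl, Int.negOnePow_zero, one_smul,
      ev_cmp _ _ _ (c + 1) (c + 1) (c + 1) (by lia) (by lia) (by lia), ev_cInr]
    refine Prod.ext ?_ ?_
    · change Z.d _ _ _ 0 + ev f _ _ _ x + 0 = ev f _ _ _ x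
      rw [map_zero, zero_add, add_zero]
    · change -X.d _ _ _ x + X.d _ _ _ x = (0 : X.M _)
      rw [neg_add_cancel]
  d_fst := by
    apply ev_ext
    intro p q h' x
    obtain rfl : q = p + 1 + 1 := by lia
    rw [mod_d, ev_del _ _ p (p + 1 + 1) (p + 1) (p + 1) (by lia) (by lia) rfl rfl (by lia), ev_cFst,
      ev_cFst]
    change X.d _ _ _ x.2 + Int.negOnePow 2 • -X.d _ _ _ x.2 = 0
    rw [show Int.negOnePow 2 = 1 from rfl, one_smul, add_neg_cancel]
  d_snd := by
    apply ev_ext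
    intro p q h' x
    obtain rfl : q = p + 1 := by lia
    rw [mod_d, mod_comp, ev_del _ _ p (p + 1) p (p + 1) (by lia) (by lia) rfl rfl (by lia), ev_cSnd,
      ev_cSnd]
    change Z.d _ _ _ x.1 + Int.negOnePow 1 • (Z.d _ _ _ x.1 + ev f _ _ _ x.2) =
      -ev (cmp _ _ _ _ _ _ _ (cFst f hf) f) _ _ _ x
    rw [ev_cmp _ _ _ p (p + 1) (p + 1) (by lia) (by lia) (by lia), ev_cFst, Int.negOnePow_one,
      Units.neg_smul, one_smul]
    abel
  inl_fst := by
    apply ev_ext
    intro p q h' x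
    obtain ⟨c, rfl⟩ : ∃ c, p = c + 1 := ⟨p - 1, by lia⟩
    obtain rfl : q = c + 1 := by lia
    rw [mod_comp, mod_one, ev_cmp _ _ _ (c + 1) (c + 1) c (by lia) (by lia) (by lia), ev_cInl, ev_cFst, ev_idm]
  inr_snd := by
    apply ev_ext
    intro p q h' x
    obtain rfl : q = p := by lia
    rw [mod_comp, mod_one, ev_cmp _ _ _ q q q (by lia) (by lia) (by lia), ev_cInr, ev_cSnd, ev_idm]
  inl_snd := by
    apply ev_ext
    intro p q h' x
    obtain ⟨c, rfl⟩ : ∃ c, p = c + 1 := ⟨p - 1, by lia⟩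
    obtain rfl : q = c := by lia
    rw [mod_comp, ev_cmp _ _ _ (q + 1) q q (by lia) (by lia) (by lia), ev_cInl, ev_cSnd]
    rfl
  inr_fst := by
    apply ev_ext
    intro p q h' x
    obtain rfl : q = p + 1 := by lia
    rw [mod_comp, ev_cmp _ _ _ p (p + 1) p (by lia) (by lia) (by lia), ev_cInr, ev_cFst]
    rfl
  id := by
    apply ev_ext
    intro p q h' x
    obtain rfl : q = p := by lia
    rw [mod_comp, mod_comp, mod_one]
    change ev (cmp _ _ _ 1 (-1) 0 (by lia) (cFst f hf) (cInl f hf)) _ _ _ x +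
      ev (cmp _ _ _ 0 0 0 (add_zero 0) (cSnd f hf) (cInr f hf)) _ _ _ x = _
    rw [ev_cmp _ _ _ q q (q + 1) (by lia) (by lia) (by lia), ev_cFst, ev_cInl,
      ev_cmp _ _ _ q q q (by lia) (by lia) (by lia), ev_cSnd, ev_cInr, ev_idm]
    exact Prod.ext (zero_add _) (add_zero _)

end

/-- product of DG modules -/
def prodMod {ι : Type} (X : ι → DGMod.{u, v, w} R) : DGMod.{u, v, w} R where
  M n := ∀ i, (X i).M n
  d p q h := LinearMap.pi fun i => (X i).d p q h ∘ₗ LinearMap.proj i
  act {p q r} h := LinearMap.mk₂ k (fun x a i => (X i).act h (x i) a)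
    (by intro x y a; funext i; simp) (by intro c x a; funext i; simp)
    (by intro x a b; funext i; simp) (by intro c x a; funext i; simp)
  act_one x := funext fun i => (X i).act_one (x i)
  assoc h₁ h₂ h₃ h₄ x a b := funext fun i => (X i).assoc h₁ h₂ h₃ h₄ (x i) a b
  d_d h₁ h₂ x := funext fun i => (X i).d_d h₁ h₂ (x i)
  d_act h hp hq hr h₁ h₂ x a := funext fun i => (X i).d_act h hp hq hr h₁ h₂ (x i) a

/-- the projection from the product -/
def prPr {ι : Type} (X : ι → DGMod.{u, v, w} R) (i : ι) : DGMod.Mor (prodMod X) (X i) 0 :=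
  mk (prodMod X) (X i) 0 (fun p q h' => cst (V := (X i).M) (by lia : p = q) ∘ₗ
    LinearMap.proj i) (by
    intro p r s q q' h' h₁ h₂ h₃ x a
    obtain rfl : p = q := by lia
    obtain rfl : s = q' := by lia
    rfl)

lemma ev_prPr {ι : Type} (X : ι → DGMod.{u, v, w} R) (i : ι) (p : ℤ) (h' : p + 0 = p)
    (x : ∀ i, (X i).M p) : ev (prPr X i) p p h' x = x i := rfl

lemma ev_cmp_prPr {ι : Type} (X : ι → DGMod.{u, v, w} R) (Z : DGMod.{u, v, w} R) (i : ι)
    (n : ℤ) (g : DGMod.Mor Z (prodMod X) n) (p q : ℤ) (h : p + n = q) (x : Z.M p) :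
    ev (cmp _ _ _ n 0 n (add_zero n) g (prPr X i)) p q h x = (ev g p q h x : ∀ i, (X i).M q) i := by
  rw [ev_cmp _ _ _ p q q h h (by lia), ev_prPr]

/-- powers of DG modules -/
def modPow (X : DGMod.{u, v, w} R) : PowData (ModDG R) X (prodMod fun _ : ℕ => X) where
  pr i := prPr (fun _ : ℕ => X) i
  d_pr i := by
    apply ev_ext
    intro p q h' x
    obtain rfl : q = p + 1 := by lia
    rw [mod_d, ev_del _ _ p (p + 1) p (p + 1) (by lia) (by lia) rfl rfl (by lia), ev_prPr,
      ev_prPr]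
    change X.d _ _ _ (x i) + Int.negOnePow 1 • X.d _ _ _ (x i) = 0
    rw [Int.negOnePow_one, Units.neg_smul, one_smul, add_neg_cancel]
  exists_lift Z n f := by
    refine ⟨mk Z (prodMod fun _ : ℕ => X) n (fun p q h => LinearMap.pi fun i =>
      ev (f i) p q h) ?_, ?_⟩
    · intro p r s q q' h h₁ h₂ h₃ x a
      funext i
      exact ev_act (f i) h h₁ h₂ h₃ x a
    · intro i
      apply ev_ext
      intro p q h x
      refine (ev_cmp_prPr (fun _ : ℕ => X) Z i n _ p q h x).trans ?_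
      rfl
  ext Z n f g h := by
    apply ev_ext
    intro p q h' x
    funext i
    have := congrArg (fun t => ev t p q h' x) (h i)
    exact (ev_cmp_prPr (fun _ : ℕ => X) Z i n f p q h' x).symm.trans
      (this.trans (ev_cmp_prPr (fun _ : ℕ => X) Z i n g p q h' x))

/-- the zero module -/
lemma mod_zero (R : DGAlg.{u, w} k) :
    (ModDG.{u, v, w} R).one (prodMod (fun i : Empty => i.elim)) = 0 := by
  apply ev_ext
  intro p q h x
  funext i
  exact i.elim

end Pool.Agent.N99.Cusp
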