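import Pool.Agent.N99.Cusp.GData

set_option autoImplicit false

/-!
Good objects in the gluing of two DG categories.
-/

universe u v w v' w'

open Pool.Agent.N212.DG

namespace Pool.Agent.N99.Cusp

variable {k : Type u} [Field k] {M : DGCat.{u, v, w} k} {B : DGCat.{u, v', w} k}
  {H : DGFun B M}

/-- first component is zero -/
def SL (Y : GObj H) : Prop := M.one Y.P = 0

/-- first component is perfect and second component is zero -/
def SR (perf : M.Obj → Prop) (Y : GObj H) : Prop := perf Y.P ∧ B.one Y.J = 0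

variable {perf : M.Obj → Prop}

lemma lift_M {OM : M.Obj} (hOM : M.one OM = 0) {X X' : GObj H}
    (hX : LOrth (Glue H) SL X) {n m : ℤ} (h : n + 1 = m)
    (p : M.Hom X.P X'.P n) (hp : M.d n m h p = 0) :
    ∃ f : (Glue H).Hom X X' n, (Glue H).d n m h f = 0 ∧ f.1 = p := by
  obtain ⟨y, hy⟩ := hX ⟨OM, X'.J, 0, map_zero _⟩ hOM n m (m + 1) h rfl
    (gm X ⟨OM, X'.J, 0, map_zero _⟩ 0 0 (M.comp (by lia) p X'.u)) (by
      rw [G_d]
      refine G_ext (map_zero _) (map_zero _) ?_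
      change M.comp _ 0 0 - M.comp _ X.u (H.map 0) -
        M.d (m - 1) (m + 1 - 1) _ (M.comp _ p X'.u) = 0
      rw [comp_closed M (p := n) (q := 0) (r := m - 1) (by lia) h (zero_add 1) (by lia) p X'.u
        hp X'.du, map_zero, map_zero, map_zero, sub_zero, sub_zero])
  have h1 := congrArg (fun t => t.2.1) hy
  have h2 := congrArg (fun t => t.2.2) hy
  change B.d n m h y.2.1 = 0 at h1
  change M.comp _ y.1 0 - M.comp _ X.u (H.map y.2.1) - M.d (n - 1) (m - 1) _ y.2.2 =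
    M.comp _ p X'.u at h2
  refine ⟨gm X X' p (-y.2.1) (-y.2.2), ?_, rfl⟩
  rw [G_d]
  refine G_ext hp ?_ ?_
  · change B.d n m h (-y.2.1) = 0
    rw [map_neg, h1, neg_zero]
  · change M.comp _ p X'.u - M.comp _ X.u (H.map (-y.2.1)) - M.d (n - 1) (m - 1) _ (-y.2.2) = 0
    rw [← h2, map_zero, map_neg, map_neg, map_neg]
    abel

lemma inj_M {OM : M.Obj} (hOM : M.one OM = 0) {X X' : GObj H}
    (hX : LOrth (Glue H) SL X) {p q r : ℤ} (h₁ : p + 1 = q) (h₂ : q + 1 = r)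
    (f : (Glue H).Hom X X' q) (hf : (Glue H).d q r h₂ f = 0) (g : M.Hom X.P X'.P p)
    (hg : M.d p q h₁ g = f.1) :
    ∃ f₀ : (Glue H).Hom X X' p, (Glue H).d p q h₁ f₀ = f ∧ f₀.1 = g := by
  have hf1 : M.d q r h₂ f.1 = 0 := congrArg Prod.fst hf
  have hf2 : B.d q r h₂ f.2.1 = 0 := congrArg (fun t => t.2.1) hf
  have hf3 := congrArg (fun t => t.2.2) hf
  change M.comp _ f.1 X'.u - M.comp _ X.u (H.map f.2.1) - M.d (q - 1) (r - 1) _ f.2.2 = 0 at hf3
  obtain ⟨y, hy⟩ := hX ⟨OM, X'.J, 0, map_zero _⟩ hOM p q r h₁ h₂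
    (gm X ⟨OM, X'.J, 0, map_zero _⟩ 0 f.2.1 (f.2.2 - M.comp (by lia) g X'.u)) (by
      rw [G_d]
      refine G_ext (map_zero _) hf2 ?_
      change M.comp _ 0 0 - M.comp _ X.u (H.map f.2.1) -
        M.d (q - 1) (r - 1) _ (f.2.2 - M.comp _ g X'.u) = 0
      rw [map_sub, d_comp_closed M (p := p) (q := 0) (r := q - 1) (p' := q) (q' := 1)
        (r' := r - 1) (by lia) h₁ (by lia) (by lia) (by lia) g X'.u X'.du, hg, map_zero,
        Int.negOnePow_zero, one_smul]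
      refine Eq.trans ?_ hf3
      abel)
  have h1 := congrArg (fun t => t.2.1) hy
  have h2 := congrArg (fun t => t.2.2) hy
  change B.d p q h₁ y.2.1 = f.2.1 at h1
  change M.comp _ y.1 0 - M.comp _ X.u (H.map y.2.1) - M.d (p - 1) (q - 1) _ y.2.2 =
    f.2.2 - M.comp _ g X'.u at h2
  refine ⟨gm X X' g y.2.1 y.2.2, ?_, rfl⟩
  rw [G_d]
  refine G_ext hg h1 ?_
  change M.comp _ g X'.u - M.comp _ X.u (H.map y.2.1) - M.d (p - 1) (q - 1) _ y.2.2 = f.2.2
  have h3 := eq_add_of_sub_eq h2.symm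
  refine Eq.trans ?_ h3.symm
  rw [map_zero]
  abel

lemma lift_B {OB : B.Obj} (hOB : B.one OB = 0) {X X' : GObj H} (hXP : perf X.P)
    (hX' : ROrth (Glue H) (SR perf) X') {n m : ℤ} (h : n + 1 = m)
    (i : B.Hom X.J X'.J n) (hi : B.d n m h i = 0) :
    ∃ f : (Glue H).Hom X X' n, (Glue H).d n m h f = 0 ∧ f.2.1 = i := by
  obtain ⟨y, hy⟩ := hX' ⟨X.P, OB, 0, map_zero _⟩ ⟨hXP, hOB⟩ n m (m + 1) h rfl
    (gm ⟨X.P, OB, 0, map_zero _⟩ X' 0 0 (M.comp (by lia) X.u (H.map i))) (by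
      rw [G_d]
      refine G_ext (map_zero _) (map_zero _) ?_
      change M.comp _ 0 X'.u - M.comp _ 0 (H.map 0) -
        M.d (m - 1) (m + 1 - 1) _ (M.comp _ X.u (H.map i)) = 0
      rw [comp_closed M (p := 0) (q := n) (r := m - 1) (by lia) (zero_add 1) h (by lia) X.u
        (H.map i) X.du (map_closed H _ _ hi), map_zero, map_zero, LinearMap.zero_apply,
        map_zero, LinearMap.zero_apply, sub_zero, sub_zero])
  have h1 := congrArg Prod.fst hy
  have h2 := congrArg (fun t => t.2.2) hy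
  change M.d n m h y.1 = 0 at h1
  change M.comp _ y.1 X'.u - M.comp _ 0 (H.map y.2.1) - M.d (n - 1) (m - 1) _ y.2.2 =
    M.comp _ X.u (H.map i) at h2
  refine ⟨gm X X' y.1 i y.2.2, ?_, rfl⟩
  rw [G_d]
  refine G_ext h1 hi ?_
  change M.comp _ y.1 X'.u - M.comp _ X.u (H.map i) - M.d (n - 1) (m - 1) _ y.2.2 = 0
  rw [← h2, map_zero, LinearMap.zero_apply]
  abel

lemma inj_B {OB : B.Obj} (hOB : B.one OB = 0) {X X' : GObj H} (hXP : perf X.P)
    (hX' : ROrth (Glue H) (SR perf) X') {p q r : ℤ} (h₁ : p + 1 = q) (h₂ : q + 1 = r)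
    (f : (Glue H).Hom X X' q) (hf : (Glue H).d q r h₂ f = 0) (g : B.Hom X.J X'.J p)
    (hg : B.d p q h₁ g = f.2.1) :
    ∃ f₀ : (Glue H).Hom X X' p, (Glue H).d p q h₁ f₀ = f ∧ f₀.2.1 = g := by
  have hf1 : M.d q r h₂ f.1 = 0 := congrArg Prod.fst hf
  have hf2 : B.d q r h₂ f.2.1 = 0 := congrArg (fun t => t.2.1) hf
  have hf3 := congrArg (fun t => t.2.2) hf
  change M.comp _ f.1 X'.u - M.comp _ X.u (H.map f.2.1) - M.d (q - 1) (r - 1) _ f.2.2 = 0 at hf3
  obtain ⟨y, hy⟩ := hX' ⟨X.P, OB, 0, map_zero _⟩ ⟨hXP, hOB⟩ p q r h₁ h₂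
    (gm ⟨X.P, OB, 0, map_zero _⟩ X' f.1 0 (f.2.2 + M.comp (by lia) X.u (H.map g))) (by
      rw [G_d]
      refine G_ext hf1 (map_zero _) ?_
      change M.comp _ f.1 X'.u - M.comp _ 0 (H.map 0) -
        M.d (q - 1) (r - 1) _ (f.2.2 + M.comp _ X.u (H.map g)) = 0
      rw [map_add, d_closed_comp M (p := 0) (q := p) (r := q - 1) (p' := 1) (q' := q)
        (r' := r - 1) (by lia) (by lia) h₁ (by lia) (by lia) X.u _ X.du, ← H.map_d, hg,
        map_zero, LinearMap.zero_apply]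
      refine Eq.trans ?_ hf3
      abel)
  have h1 := congrArg Prod.fst hy
  have h2 := congrArg (fun t => t.2.2) hy
  change M.d p q h₁ y.1 = f.1 at h1
  change M.comp _ y.1 X'.u - M.comp _ 0 (H.map y.2.1) - M.d (p - 1) (q - 1) _ y.2.2 =
    f.2.2 + M.comp _ X.u (H.map g) at h2
  refine ⟨gm X X' y.1 g y.2.2, ?_, rfl⟩
  rw [G_d]
  refine G_ext h1 hg ?_
  change M.comp _ y.1 X'.u - M.comp _ X.u (H.map g) - M.d (p - 1) (q - 1) _ y.2.2 = f.2.2
  have h3 := eq_sub_of_add_eq h2.symm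
  refine Eq.trans ?_ h3.symm
  rw [map_zero, LinearMap.zero_apply]
  abel

/-- the identity is closed -/
lemma d_one (D : DGCat.{u, v, w} k) (X : D.Obj) : D.d 0 1 (zero_add 1) (D.one X) = 0 := by
  have h := D.d_comp (add_zero 0) (zero_add 1) (zero_add 1) (zero_add 1) (zero_add 1)
    (add_zero 1) (D.one X) (D.one X)
  rw [D.one_comp, D.one_comp, D.comp_one, Int.negOnePow_zero, one_smul] at h
  exact (add_left_cancel ((add_zero _).trans h)).symm

/-- a criterion for homotopy retracts in the gluing -/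
lemma retract_of {X Y : GObj H} (m : (Glue H).Hom X Y 0) (n : (Glue H).Hom Y X 0)
    (hm : (Glue H).d 0 1 (zero_add 1) m = 0) (hn : (Glue H).d 0 1 (zero_add 1) n = 0)
    (s₁ : M.Hom X.P X.P (-1)) (s₂ : B.Hom X.J X.J (-1))
    (h₁ : M.comp (add_zero 0) m.1 n.1 = M.one X.P + M.d (-1) 0 (by lia) s₁)
    (h₂ : B.comp (add_zero 0) m.2.1 n.2.1 = B.one X.J + B.d (-1) 0 (by lia) s₂) :
    Nonempty (RetData (Glue H) Y X) := by
  obtain ⟨θ, hθ⟩ : ∃ θ, θ = (Glue H).comp (add_zero 0) m n := ⟨_, rfl⟩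
  have dθ : (Glue H).d 0 1 (zero_add 1) θ = 0 := by
    rw [hθ]; exact comp_closed _ _ (zero_add 1) (zero_add 1) _ _ _ hm hn
  obtain ⟨S, hS⟩ : ∃ S, S = gm X X s₁ s₂ (0 : M.Hom X.P (H.obj X.J) (-1 - 1)) := ⟨_, rfl⟩
  have dd : (Glue H).d 0 1 (zero_add 1) ((Glue H).d (-1) 0 (by lia) S) = 0 :=
    (Glue H).d_d _ _ S
  have done : (Glue H).d 0 1 (zero_add 1) ((Glue H).one X) = 0 := d_one _ _
  obtain ⟨c, hc⟩ : ∃ c, c = θ - (Glue H).one X - (Glue H).d (-1) 0 (by lia) S := ⟨_, rfl⟩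
  have dc : (Glue H).d 0 1 (zero_add 1) c = 0 := by
    rw [hc, map_sub, map_sub, dθ, done, dd, sub_zero, sub_zero]
  have c1 : c.1 = 0 := by
    rw [hc, hθ, hS]
    change M.comp _ m.1 n.1 - M.one X.P - M.d (-1) 0 _ s₁ = 0
    rw [h₁]; abel
  have c2 : c.2.1 = 0 := by
    rw [hc, hθ, hS]
    change B.comp _ m.2.1 n.2.1 - B.one X.J - B.d (-1) 0 _ s₂ = 0
    rw [h₂]; abel
  have cc : (Glue H).comp (add_zero 0) c c = 0 := by
    rw [G_comp]
    refine G_ext ?_ ?_ ?_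
    · change M.comp _ c.1 c.1 = 0
      rw [c1, map_zero]
    · change B.comp _ c.2.1 c.2.1 = 0
      rw [c2, map_zero]
    · change M.comp _ c.1 c.2.2 + _ • M.comp _ c.2.2 (H.map c.2.1) = 0
      rw [c1, c2, map_zero, map_zero, map_zero, LinearMap.zero_apply, smul_zero, add_zero]
  have hθ2 : θ = (Glue H).one X + c + (Glue H).d (-1) 0 (by lia) S := by
    rw [hc]; abel
  have d1 : (Glue H).d 0 1 (zero_add 1) ((Glue H).one X - c) = 0 := by
    rw [map_sub, done, dc, sub_zero]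
  refine ⟨⟨m, (Glue H).comp (add_zero 0) n ((Glue H).one X - c),
    (Glue H).comp (add_zero (-1)) S ((Glue H).one X - c), hm, ?_, ?_⟩⟩
  · exact comp_closed _ _ (zero_add 1) (zero_add 1) _ _ _ hn d1
  · rw [← (Glue H).assoc (add_zero 0) (add_zero 0) (add_zero 0) (add_zero 0), ← hθ,
      d_comp_closed (Glue H) (p := -1) (q := 0) (r := -1) (p' := 0) (q' := 1) (r' := 0)
        (by lia) (by lia) (by lia) (by lia) (by lia) S _ d1, Int.negOnePow_zero, one_smul, hθ2]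
    simp only [map_add, map_sub, LinearMap.add_apply, (Glue H).comp_one, cc, (Glue H).one_comp]
    abel

/-- composition of two homotopy inverses -/
lemma h_trans (D : DGCat.{u, v, w} k) {X Y Z : D.Obj} (i : D.Hom X Y 0) (p : D.Hom Y X 0)
    (j : D.Hom Y Z 0) (q : D.Hom Z Y 0) (s : D.Hom X X (-1)) (t : D.Hom Y Y (-1))
    (di : D.d 0 1 (zero_add 1) i = 0) (dp : D.d 0 1 (zero_add 1) p = 0)
    (hs : D.comp (add_zero 0) i p = D.one X + D.d (-1) 0 (by lia) s)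
    (ht : D.comp (add_zero 0) j q = D.one Y + D.d (-1) 0 (by lia) t) :
    ∃ r : D.Hom X X (-1), D.comp (add_zero 0) (D.comp (add_zero 0) i j)
      (D.comp (add_zero 0) q p) = D.one X + D.d (-1) 0 (by lia) r := by
  refine ⟨s + D.comp (zero_add (-1)) i (D.comp (add_zero (-1)) t p), ?_⟩
  have e1 : D.d (-1) 0 (by lia) (D.comp (add_zero (-1)) t p) =
      D.comp (add_zero 0) (D.d (-1) 0 (by lia) t) p := by
    rw [d_comp_closed D (p := -1) (q := 0) (r := -1) (p' := 0) (q' := 1) (r' := 0)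
        (by lia) (by lia) (by lia) (by lia) (by lia) t p dp, Int.negOnePow_zero, one_smul]
  rw [map_add, d_closed_comp D (p := 0) (q := -1) (r := -1) (p' := 1) (q' := 0) (r' := 0)
        (by lia) (by lia) (by lia) (by lia) (by lia) i _ di, e1,
    D.assoc (add_zero 0) (add_zero 0) (add_zero 0) (add_zero 0),
    ← D.assoc (add_zero 0) (add_zero 0) (add_zero 0) (add_zero 0) j q p, ht, map_add,
    LinearMap.add_apply, D.one_comp, map_add, hs]
  abel

/-- replacing the first component by a homotopy equivalent object -/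
lemma replace {OM : M.Obj} (hOM : M.one OM = 0) {Y : GObj H} (hY : LOrth (Glue H) SL Y)
    {P : M.Obj} (v : M.Hom P Y.P 0) (v' : M.Hom Y.P P 0) (s : M.Hom P P (-1))
    (t : M.Hom Y.P Y.P (-1)) (dv : M.d 0 1 (zero_add 1) v = 0) (dv' : M.d 0 1 (zero_add 1) v' = 0)
    (hs : M.comp (add_zero 0) v v' = M.one P + M.d (-1) 0 (by lia) s)
    (ht : M.comp (add_zero 0) v' v = M.one Y.P + M.d (-1) 0 (by lia) t) :
    ∃ X : GObj H, X.P = P ∧ Nonempty (RetData (Glue H) Y X) := by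
  let X : GObj H := ⟨P, Y.J, M.comp (add_zero 0) v Y.u,
    comp_closed M _ (zero_add 1) (zero_add 1) _ _ _ dv Y.du⟩
  refine ⟨X, rfl, ?_⟩
  let m : (Glue H).Hom X Y 0 := gm X Y v (B.one Y.J) 0
  have dm : (Glue H).d 0 1 (zero_add 1) m = 0 := by
    rw [G_d]
    refine G_ext dv (d_one B _) ?_
    change M.comp _ v Y.u - M.comp _ (M.comp _ v Y.u) (H.map (B.one Y.J)) - M.d _ _ _ 0 = 0
    rw [H.map_one, M.assoc (p := 0) (q := 0) (r := 0) (pq := 0) (qr := 0) (pqr := 1 - 1)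
      (by lia) (by lia) (by lia) (by lia), M.comp_one, map_zero, sub_zero]
    exact sub_self _
  obtain ⟨n, dn, hn⟩ := lift_M (X := Y) (X' := X) hOM hY (zero_add 1) v' dv'
  have hnm : (Glue H).d 0 1 (zero_add 1) ((Glue H).comp (add_zero 0) n m - (Glue H).one Y) = 0 := by
    rw [map_sub, d_one, sub_zero]
    exact comp_closed _ _ (zero_add 1) (zero_add 1) _ _ _ dn dm
  obtain ⟨f₀, hf₀, -⟩ := inj_M hOM hY (X' := Y) (p := -1) (q := 0) (r := 1) (by lia) (by lia)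
    ((Glue H).comp (add_zero 0) n m - (Glue H).one Y) hnm t (by
      change _ = M.comp _ n.1 v - M.one Y.P
      rw [hn, ht]; abel)
  have h2 := congrArg (fun t => t.2.1) hf₀
  change B.d (-1) 0 _ f₀.2.1 = B.comp _ n.2.1 (B.one Y.J) - B.one Y.J at h2
  rw [B.comp_one] at h2
  refine retract_of m n dm dn s f₀.2.1 ?_ ?_
  · change M.comp _ v n.1 = _
    rw [hn, hs]
  · change B.comp _ (B.one Y.J) n.2.1 = _
    rw [B.one_comp]
    change n.2.1 = B.one Y.J + _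
    rw [h2]; abel

end Pool.Agent.N99.Cusp
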