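import Pool.Agent.N99.Cusp.Orth

set_option autoImplicit false

/-!
A criterion for the right orthogonality condition.
-/

universe u v w v' w'

open Pool.Agent.N212.DG

namespace Pool.Agent.N99.Cusp

variable {k : Type u} [Field k] {M : DGCat.{u, v, w} k} {B : DGCat.{u, v', w} k}
  {H : DGFun B M}

lemma rOrth_of_cone {X : GObj H} {N : M.Obj} (cd : ConeData M X.u N) {Y : GObj H}
    (hP : LOrth M (fun Z => Z = N) Y.P) (hJ : B.one Y.J = 0) {p q r : ℤ} (h₁ : p + 1 = q)
    (h₂ : q + 1 = r) (z : (Glue H).Hom Y X q) (hz : (Glue H).d q r h₂ z = 0) :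
    ∃ y : (Glue H).Hom Y X p, (Glue H).d p q h₁ y = z := by
  have hu : Y.u = 0 := by
    have h := M.comp_one Y.u
    rw [← H.map_one, hJ, map_zero, map_zero] at h
    exact h.symm
  have hz0 : z.2.1 = 0 := by
    have h := B.one_comp z.2.1
    rw [hJ, map_zero, LinearMap.zero_apply] at h
    exact h.symm
  have hz1 : M.d q r h₂ z.1 = 0 := congrArg Prod.fst hz
  have hz3 : M.comp (by lia) z.1 X.u - M.comp (by lia) Y.u (H.map z.2.1) -
      M.d (q - 1) (r - 1) (by lia) z.2.2 = 0 := congrArg (fun t => t.2.2) hz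
  rw [hu, map_zero, LinearMap.zero_apply, sub_zero, sub_eq_zero] at hz3
  obtain ⟨ζ, hζ⟩ : ∃ ζ : M.Hom Y.P N (q - 1), ζ = M.comp (by lia) z.2.2 cd.inr -
    M.comp (by lia) z.1 cd.inl := ⟨_, rfl⟩
  have dζ : M.d (q - 1) (r - 1) (by lia) ζ = 0 := by
    rw [hζ, map_sub, d_comp_closed M (p := q - 1) (q := 0) (r := q - 1) (p' := r - 1) (q' := 1)
      (r' := r - 1) (by lia) (by lia) (by lia) (by lia) (by lia) z.2.2 cd.inr cd.d_inr,
      d_closed_comp M (p := q) (q := -1) (r := q - 1) (p' := r) (q' := 0) (r' := r - 1) (by lia)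
      (by lia) (by lia) (by lia) (by lia) z.1 cd.inl hz1, cd.d_inl, ← hz3, Int.negOnePow_zero,
      one_smul, M.assoc (p := q) (q := 0) (r := 0) (pq := r - 1) (qr := 0) (pqr := r - 1)
      (by lia) (by lia) (by lia) (by lia), sub_self]
  obtain ⟨β, hβ⟩ := hP N rfl (p - 1) (q - 1) (r - 1) (by lia) (by lia) ζ dζ
  have hβ1 : M.comp (by lia) ζ cd.fst = - z.1 := by
    rw [hζ, map_sub, LinearMap.sub_apply, M.assoc (p := q - 1) (q := 0) (r := 1) (pq := q - 1)
      (qr := 1) (pqr := q) (by lia) (by lia) (by lia) (by lia), cd.inr_fst, map_zero,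
      M.assoc (p := q) (q := -1) (r := 1) (pq := q - 1) (qr := 0) (pqr := q) (by lia) (by lia)
      (by lia) (by lia), cd.inl_fst, M.comp_one, zero_sub]
  have hβ2 : M.comp (by lia) ζ cd.snd = z.2.2 := by
    rw [hζ, map_sub, LinearMap.sub_apply, M.assoc (p := q - 1) (q := 0) (r := 0) (pq := q - 1)
      (qr := 0) (pqr := q - 1) (by lia) (by lia) (by lia) (by lia), cd.inr_snd, M.comp_one,
      M.assoc (p := q) (q := -1) (r := 0) (pq := q - 1) (qr := -1) (pqr := q - 1) (by lia)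
      (by lia) (by lia) (by lia), cd.inl_snd, map_zero, sub_zero]
  refine ⟨gm Y X (M.comp (by lia) β cd.fst) 0 (-(M.comp (by lia) β cd.snd)), ?_⟩
  rw [G_d]
  refine G_ext ?_ ((map_zero _).trans hz0.symm) ?_
  · change M.d p q h₁ (M.comp _ β cd.fst) = z.1
    rw [d_comp_closed M (p := p - 1) (q := 1) (r := p) (p' := q - 1) (q' := 2) (r' := q)
      (by lia) (by lia) (by lia) (by lia) (by lia) β cd.fst cd.d_fst, hβ, hβ1,
      Int.negOnePow_one, Units.neg_smul, one_smul, neg_neg]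
  · change M.comp _ (M.comp _ β cd.fst) X.u - M.comp _ Y.u (H.map 0) -
      M.d (p - 1) (q - 1) _ (-(M.comp _ β cd.snd)) = z.2.2
    rw [map_zero, map_zero, sub_zero, map_neg, sub_neg_eq_add,
      M.d_comp (p := p - 1) (q := 0) (r := p - 1) (p' := q - 1) (q' := 1) (r' := q - 1)
      (by lia) (by lia) (by lia) (by lia) (by lia) (by lia) β cd.snd, hβ, hβ2, cd.d_snd,
      Int.negOnePow_zero, one_smul, map_neg,
      M.assoc (p := p - 1) (q := 1) (r := 0) (pq := p) (qr := 1) (pqr := q - 1) (by lia) (by lia)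
      (by lia) (by lia)]
    abel

end Pool.Agent.N99.Cusp
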