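import Pool.Agent.N99.Cusp.Abs

set_option autoImplicit false

/-!
Splitting of homotopy idempotents in a DG category with cones and countable powers.
-/

universe u v w v' w'

open Pool.Agent.N212.DG

namespace Pool.Agent.N99.Cusp

variable {k : Type u} [Field k] {D : DGCat.{u, v, w} k}

/-- `P` is the countable power of `X`. -/
structure PowData (D : DGCat.{u, v, w} k) (X P : D.Obj) where
  /-- the projections -/
  pr : ℕ → D.Hom P X 0
  d_pr : ∀ i, D.d 0 1 (zero_add 1) (pr i) = 0
  /-- the universal property -/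
  exists_lift : ∀ (Z : D.Obj) (n : ℤ) (f : ℕ → D.Hom Z X n),
    ∃ g : D.Hom Z P n, ∀ i, D.comp (add_zero n) g (pr i) = f i
  ext : ∀ (Z : D.Obj) (n : ℤ) (f g : D.Hom Z P n),
    (∀ i, D.comp (add_zero n) f (pr i) = D.comp (add_zero n) g (pr i)) → f = g

/-- `Y` is the homotopy fibre of `g : P ⟶ Q`. -/
structure FibData (D : DGCat.{u, v, w} k) {P Q : D.Obj} (g : D.Hom P Q 0) (Y : D.Obj) where
  /-- the map to the source -/
  j : D.Hom Y P 0
  /-- the second projection -/
  q : D.Hom Y Q (-1)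
  /-- first inclusion -/
  i₀ : D.Hom P Y 0
  /-- second inclusion -/
  i₁ : D.Hom Q Y 1
  dj : D.d 0 1 (zero_add 1) j = 0
  dq : D.d (-1) 0 (by lia) q = - D.comp (add_zero 0) j g
  di₀ : D.d 0 1 (zero_add 1) i₀ = - D.comp (zero_add 1) g i₁
  di₁ : D.d 1 2 (by lia) i₁ = 0
  i₀j : D.comp (add_zero 0) i₀ j = D.one P
  i₁q : D.comp (by lia) i₁ q = D.one Q
  i₀q : D.comp (zero_add (-1)) i₀ q = 0
  i₁j : D.comp (add_zero 1) i₁ j = 0
  id : D.comp (add_zero 0) j i₀ + D.comp (by lia) q i₁ = D.one Y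

lemma fib_of_cone {P Q : D.Obj} {g : D.Hom P Q 0} {Y' Y : D.Obj} (c : ConeData D g Y')
    (e : ShiftData D Y' Y (-1) 1 (by lia)) : Nonempty (FibData D g Y) := by
  have ets := e.ts
  have est := e.st
  have key1 : D.comp (r := 1) (by lia) e.s (D.comp (r := 0) (by lia) e.t c.fst) = c.fst := by
    rw [← D.assoc (pq := 0) (by lia) (by lia) (by lia) (by lia), est, D.one_comp]
  have key2 : D.comp (r := 0) (by lia) e.s (D.comp (r := -1) (by lia) e.t c.snd) = c.snd := by
    rw [← D.assoc (pq := 0) (by lia) (by lia) (by lia) (by lia), est, D.one_comp]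
  exact ⟨{
    j := D.comp (by lia) e.t c.fst
    q := D.comp (by lia) e.t c.snd
    i₀ := D.comp (by lia) c.inl e.s
    i₁ := D.comp (by lia) c.inr e.s
    dj := comp_closed D _ (by lia) (by lia) _ _ _ e.dt c.d_fst
    dq := by
      rw [d_closed_comp D (p' := 0) (q' := 1) (by lia) (by lia) (by lia) (by lia) (by lia) e.t c.snd e.dt,
        c.d_snd, map_neg, D.assoc (p := -1) (q := 1) (r := 0) (pq := 0) (qr := 1) (pqr := 0) (by lia) (by lia) (by lia) (by lia)]
    di₀ := by
      rw [d_comp_closed D (p' := 0) (q' := 2) (by lia) (by lia) (by lia) (by lia) (by lia) c.inl e.s e.ds,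
        c.d_inl, D.assoc (p := 0) (q := 0) (r := 1) (pq := 0) (qr := 1) (pqr := 1) (by lia) (by lia) (by lia) (by lia),
        Int.negOnePow_one, Units.neg_smul, one_smul]
    di₁ := comp_closed D _ (by lia) (by lia) _ _ _ c.d_inr e.ds
    i₀j := by
      rw [D.assoc (p := -1) (q := 1) (r := 0) (qr := 1) (by lia) (by lia) (by lia) (by lia), key1,
        c.inl_fst]
    i₁q := by
      rw [D.assoc (p := 0) (q := 1) (r := -1) (qr := 0) (by lia) (by lia) (by lia) (by lia), key2,
        c.inr_snd]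
    i₀q := by
      rw [D.assoc (p := -1) (q := 1) (r := -1) (qr := 0) (by lia) (by lia) (by lia) (by lia), key2,
        c.inl_snd]
    i₁j := by
      rw [D.assoc (p := 0) (q := 1) (r := 0) (qr := 1) (by lia) (by lia) (by lia) (by lia), key1,
        c.inr_fst]
    id := by
      have e1 : D.comp (add_zero 0) (D.comp (r := 0) (by lia) e.t c.fst)
          (D.comp (r := 0) (by lia) c.inl e.s) = D.comp (r := 0) (by lia) e.t
            (D.comp (r := 1) (by lia) (D.comp (r := 0) (by lia) c.fst c.inl) e.s) := by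
        rw [D.assoc (p := -1) (q := 1) (r := 0) (qr := 1) (by lia) (by lia) (by lia) (by lia),
          D.assoc (p := 1) (q := -1) (r := 1) (qr := 0) (by lia) (by lia) (by lia) (by lia)]
      have e2 : D.comp (r := 0) (by lia) (D.comp (r := -1) (by lia) e.t c.snd)
          (D.comp (r := 1) (by lia) c.inr e.s) = D.comp (r := 0) (by lia) e.t
            (D.comp (r := 1) (by lia) (D.comp (r := 0) (by lia) c.snd c.inr) e.s) := by
        rw [D.assoc (p := -1) (q := 0) (r := 1) (qr := 1) (by lia) (by lia) (by lia) (by lia),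
          D.assoc (p := 0) (q := 0) (r := 1) (qr := 1) (by lia) (by lia) (by lia) (by lia)]
      rw [e1, e2, ← map_add, ← LinearMap.add_apply, ← map_add, c.id, D.one_comp, ets] }⟩

/-- a differential is determined by its components -/
lemma PowData.d_ext {X P : D.Obj} (pw : PowData D X P) {Z : D.Obj} {n m : ℤ} (h : n + 1 = m)
    (f : D.Hom Z P n) (f' : D.Hom Z P m)
    (H : ∀ i, D.d n m h (D.comp (add_zero n) f (pw.pr i)) = D.comp (add_zero m) f' (pw.pr i)) :
    D.d n m h f = f' := by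
  apply pw.ext
  intro i
  rw [← H i, d_comp_closed D (p' := m) (add_zero n) h (zero_add 1) h (add_zero m) f _ (pw.d_pr i),
    Int.negOnePow_zero, one_smul]

/-- Homotopy idempotents split. -/
theorem split {X P : D.Obj} (e : D.Hom X X 0) (he : D.d 0 1 (zero_add 1) e = 0)
    (s : D.Hom X X (-1)) (hs : D.comp (add_zero 0) e e = e + D.d (-1) 0 (by lia) s)
    (pw : PowData D X P) (fib : ∀ g : D.Hom P P 0, D.d 0 1 (zero_add 1) g = 0 →
      ∃ Y, Nonempty (FibData D g Y)) :
    ∃ (Y : D.Obj) (a : D.Hom X Y 0) (b : D.Hom Y X 0) (t : D.Hom Y Y (-1)),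
      D.d 0 1 (zero_add 1) a = 0 ∧ D.d 0 1 (zero_add 1) b = 0 ∧
      D.comp (add_zero 0) a b = e ∧
      D.comp (add_zero 0) b a = D.one Y + D.d (-1) 0 (by lia) t := by
  have d_ds : D.d 0 1 (zero_add 1) (D.d (-1) 0 (by lia) s) = 0 := D.d_d _ _ s
  -- closed composites with e
  have hpe : ∀ m, D.d 0 1 (zero_add 1) (D.comp (add_zero 0) (pw.pr m) e) = 0 := fun m =>
    comp_closed D (add_zero 0) (zero_add 1) (zero_add 1) (zero_add 1) _ _ (pw.d_pr m) he
  have hps : ∀ m, D.d (-1) 0 (by lia) (D.comp (zero_add (-1)) (pw.pr m) s) =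
      D.comp (add_zero 0) (pw.pr m) (D.d (-1) 0 (by lia) s) := fun m =>
    d_closed_comp D (zero_add (-1)) (zero_add 1) (by lia) (by lia) (by lia) _ _ (pw.d_pr m)
  have hee : ∀ m, D.comp (add_zero 0) (D.comp (add_zero 0) (pw.pr m) e) e =
      D.comp (add_zero 0) (pw.pr m) e +
        D.comp (add_zero 0) (pw.pr m) (D.d (-1) 0 (by lia) s) := fun m => by
    rw [D.assoc (add_zero 0) (add_zero 0) (add_zero 0) (add_zero 0), hs, map_add]
  obtain ⟨g, hg⟩ := pw.exists_lift P 0 (fun i => pw.pr i - D.comp (add_zero 0) (pw.pr (i+1)) e)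
  obtain ⟨ρ, hρ⟩ := pw.exists_lift P 0 (fun n => pw.pr n - D.comp (add_zero 0) (pw.pr n) e -
    ∑ m ∈ Finset.range n, D.comp (add_zero 0) (pw.pr m) e)
  obtain ⟨α, hα⟩ := pw.exists_lift X 0 (fun _ => e)
  obtain ⟨sα, hsα⟩ := pw.exists_lift X (-1) (fun _ => s)
  obtain ⟨h1, hh1⟩ := pw.exists_lift P (-1) (fun n => ∑ m ∈ Finset.range (n + 2),
    D.comp (zero_add (-1)) (pw.pr m) s)
  obtain ⟨h2, hh2⟩ := pw.exists_lift P (-1) (fun n => ∑ m ∈ Finset.range (n + 1),
    D.comp (zero_add (-1)) (pw.pr (m + 1)) s)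
  have dg : D.d 0 1 (zero_add 1) g = 0 := by
    apply pw.d_ext
    intro i
    rw [hg, map_sub, pw.d_pr, hpe, map_zero, LinearMap.zero_apply, sub_zero]
  have dρ : D.d 0 1 (zero_add 1) ρ = 0 := by
    apply pw.d_ext
    intro i
    rw [hρ, map_sub, map_sub, map_sum, pw.d_pr, hpe, Finset.sum_eq_zero (fun m _ => hpe m),
      map_zero, LinearMap.zero_apply, sub_zero, sub_zero]
  have dα : D.d 0 1 (zero_add 1) α = 0 := by
    apply pw.d_ext
    intro i
    rw [hα, he, map_zero, LinearMap.zero_apply]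
  have hρg : D.comp (add_zero 0) ρ g = D.one P + D.d (-1) 0 (by lia) h1 := by
    apply pw.ext
    intro n
    have e1 : D.comp (add_zero 0) (D.d (-1) 0 (by lia) h1) (pw.pr n) =
        ∑ m ∈ Finset.range (n + 2), D.comp (add_zero 0) (pw.pr m) (D.d (-1) 0 (by lia) s) := by
      have := congrArg (D.d (-1) 0 (by lia)) (hh1 n)
      rw [d_comp_closed D (p' := 0) (add_zero (-1)) (by lia) (zero_add 1) (by lia) (add_zero 0) h1 _
        (pw.d_pr n), Int.negOnePow_zero, one_smul, map_sum] at this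
      rw [this]
      exact Finset.sum_congr rfl fun m _ => hps m
    rw [D.assoc (add_zero 0) (add_zero 0) (add_zero 0) (add_zero 0), hg, map_sub, hρ,
      ← D.assoc (add_zero 0) (add_zero 0) (add_zero 0) (add_zero 0), hρ, map_add,
      LinearMap.add_apply, D.one_comp, e1]
    simp only [map_sub, map_add, map_sum, LinearMap.sub_apply, LinearMap.add_apply,
      LinearMap.sum_apply, hee, Finset.sum_range_succ, Finset.sum_add_distrib]
    abel
  have hgρ : D.comp (add_zero 0) g ρ = D.one P - D.comp (add_zero 0) (pw.pr 0) α +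
      D.d (-1) 0 (by lia) h2 := by
    apply pw.ext
    intro n
    have e1 : D.comp (add_zero 0) (D.d (-1) 0 (by lia) h2) (pw.pr n) =
        ∑ m ∈ Finset.range (n + 1), D.comp (add_zero 0) (pw.pr (m + 1))
          (D.d (-1) 0 (by lia) s) := by
      have := congrArg (D.d (-1) 0 (by lia)) (hh2 n)
      rw [d_comp_closed D (p' := 0) (add_zero (-1)) (by lia) (zero_add 1) (by lia) (add_zero 0) h2 _
        (pw.d_pr n), Int.negOnePow_zero, one_smul, map_sum] at this
      rw [this]
      exact Finset.sum_congr rfl fun m _ => hps (m + 1)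
    have e2 : ∀ n, ∑ m ∈ Finset.range n, D.comp (add_zero 0) (pw.pr (m + 1)) e =
        ∑ m ∈ Finset.range n, D.comp (add_zero 0) (pw.pr m) e +
          (D.comp (add_zero 0) (pw.pr n) e - D.comp (add_zero 0) (pw.pr 0) e) := by
      intro n
      induction n with
      | zero => simp
      | succ n ih =>
        rw [Finset.sum_range_succ, ih, Finset.sum_range_succ]
        abel
    have e3 : ∀ m, D.comp (add_zero 0) g (D.comp (add_zero 0) (pw.pr m) e) =
        D.comp (add_zero 0) (pw.pr m) e - (D.comp (add_zero 0) (pw.pr (m+1)) e +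
        D.comp (add_zero 0) (pw.pr (m+1)) (D.d (-1) 0 (by lia) s)) := by
      intro m
      rw [← D.assoc (add_zero 0) (add_zero 0) (add_zero 0) (add_zero 0), hg, map_sub,
        LinearMap.sub_apply, hee]
    rw [D.assoc (add_zero 0) (add_zero 0) (add_zero 0) (add_zero 0), hρ, map_sub, map_sub, hg,
      map_sum, e3, map_add, map_sub, LinearMap.add_apply, LinearMap.sub_apply, D.one_comp, e1,
      D.assoc (add_zero 0) (add_zero 0) (add_zero 0) (add_zero 0), hα,
      Finset.sum_congr rfl (fun m _ => e3 m), Finset.sum_sub_distrib, Finset.sum_add_distrib, e2,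
      Finset.sum_range_succ]
    abel
  have hαg : D.comp (add_zero 0) α g = - D.d (-1) 0 (by lia) sα := by
    apply pw.ext
    intro n
    have e1 : D.comp (add_zero 0) (D.d (-1) 0 (by lia) sα) (pw.pr n) =
        D.d (-1) 0 (by lia) s := by
      have := congrArg (D.d (-1) 0 (by lia)) (hsα n)
      rw [d_comp_closed D (p' := 0) (add_zero (-1)) (by lia) (zero_add 1) (by lia) (add_zero 0) sα _
        (pw.d_pr n), Int.negOnePow_zero, one_smul] at this
      exact this
    rw [D.assoc (add_zero 0) (add_zero 0) (add_zero 0) (add_zero 0), hg, map_sub, hα,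
      ← D.assoc (add_zero 0) (add_zero 0) (add_zero 0) (add_zero 0), hα, hs, map_neg,
      LinearMap.neg_apply, e1]
    abel
  obtain ⟨Y, ⟨F⟩⟩ := fib g dg
  have haj : D.comp (add_zero 0) (D.comp (add_zero 0) α F.i₀ +
      D.comp (by lia) sα F.i₁) F.j = α := by
    rw [map_add, LinearMap.add_apply, D.assoc (add_zero 0) (add_zero 0) (add_zero 0) (add_zero 0),
      F.i₀j, D.comp_one,
      D.assoc (p := -1) (q := 1) (r := 0) (pq := 0) (qr := 1) (pqr := 0) (by lia) (by lia)
        (by lia) (by lia), F.i₁j, map_zero, add_zero]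
  have da : D.d 0 1 (zero_add 1) (D.comp (add_zero 0) α F.i₀ +
      D.comp (by lia) sα F.i₁) = 0 := by
    rw [map_add, d_closed_comp D (q' := 1) (r' := 1) (add_zero 0) (zero_add 1) (zero_add 1)
      (zero_add 1) (zero_add 1) α F.i₀ dα, F.di₀, map_neg,
      ← D.assoc (p := 0) (q := 0) (r := 1) (pq := 0) (qr := 1) (pqr := 1) (by lia) (by lia)
        (by lia) (by lia), hαg,
      d_comp_closed D (p := -1) (q := 1) (r := 0) (p' := 0) (q' := 2) (r' := 1) (by lia) (by lia)
        (by lia) (by lia) (by lia) sα F.i₁ F.di₁, Int.negOnePow_one, Units.neg_smul, one_smul,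
      map_neg, LinearMap.neg_apply, neg_neg, add_neg_cancel]
  have db : D.d 0 1 (zero_add 1) (D.comp (add_zero 0) F.j (pw.pr 0)) = 0 :=
    comp_closed D _ (by lia) (by lia) _ _ _ F.dj (pw.d_pr 0)
  obtain ⟨a, ha⟩ : ∃ a, a = D.comp (add_zero 0) α F.i₀ + D.comp (by lia) sα F.i₁ := ⟨_, rfl⟩
  rw [← ha] at haj da
  have done : D.d 0 1 (zero_add 1) (D.one Y) = 0 := by
    have h := d_comp_closed D (p' := 1) (add_zero 0) (zero_add 1) (zero_add 1) (zero_add 1)
      (add_zero 1) F.j F.i₀
    have e1 := congrArg (D.d 0 1 (zero_add 1)) F.id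
    rw [map_add, D.d_comp (p' := 1) (q' := 1) (r' := 1) (add_zero 0) (zero_add 1) (zero_add 1)
      (zero_add 1) (zero_add 1) (add_zero 1) F.j F.i₀, F.dj, F.di₀,
      d_comp_closed D (p := -1) (q := 1) (r := 0) (p' := 0) (q' := 2) (r' := 1) (by lia) (by lia)
        (by lia) (by lia) (by lia) F.q F.i₁ F.di₁, F.dq,
      map_zero, LinearMap.zero_apply, smul_zero, add_zero, Int.negOnePow_one, Units.neg_smul,
      one_smul, map_neg, map_neg, LinearMap.neg_apply, neg_neg,
      D.assoc (p := 0) (q := 0) (r := 1) (pq := 0) (qr := 1) (pqr := 1) (by lia) (by lia)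
        (by lia) (by lia), neg_add_cancel] at e1
    exact e1.symm
  have dφ : D.d 0 1 (zero_add 1) (D.comp (add_zero 0) (D.comp (add_zero 0) F.j (pw.pr 0)) a -
      D.one Y) = 0 := by
    rw [map_sub, done, sub_zero]
    exact comp_closed D (add_zero 0) (zero_add 1) (zero_add 1) (zero_add 1) _ a db da
  obtain ⟨φ, hφ⟩ : ∃ φ, φ = D.comp (add_zero 0) (D.comp (add_zero 0) F.j (pw.pr 0)) a -
      D.one Y := ⟨_, rfl⟩
  rw [← hφ] at dφ
  obtain ⟨c, hc⟩ : ∃ c : D.Hom Y P (-1), D.comp (add_zero 0) φ F.j = D.d (-1) 0 (by lia) c := by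
    refine ⟨D.comp (add_zero (-1)) F.q ρ + D.comp (zero_add (-1)) F.j h2, ?_⟩
    rw [map_add, d_comp_closed D (p' := 0) (q' := 1) (r' := 0) (by lia) (by lia) (by lia) (by lia)
      (by lia) F.q ρ dρ, F.dq, d_closed_comp D (p' := 1) (q' := 0) (r' := 0) (by lia) (by lia)
      (by lia) (by lia) (by lia) F.j h2 F.dj, Int.negOnePow_zero, one_smul, hφ, map_sub,
      LinearMap.sub_apply, D.one_comp, D.assoc (add_zero 0) (add_zero 0) (add_zero 0) (add_zero 0),
      haj, map_neg, LinearMap.neg_apply,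
      D.assoc (add_zero 0) (add_zero 0) (add_zero 0) (add_zero 0) F.j g ρ, hgρ,
      D.assoc (add_zero 0) (add_zero 0) (add_zero 0) (add_zero 0), map_add, map_sub, D.comp_one]
    abel
  obtain ⟨w, hw⟩ : ∃ w : D.Hom Y P (-1), w = D.comp (add_zero (-1)) c g +
    D.comp (zero_add (-1)) φ F.q := ⟨_, rfl⟩
  have dw : D.d (-1) 0 (by lia) w = 0 := by
    rw [hw, map_add, d_comp_closed D (p' := 0) (q' := 1) (r' := 0) (by lia) (by lia) (by lia)
      (by lia) (by lia) c g dg, ← hc,
      d_closed_comp D (p' := 1) (q' := 0) (r' := 0) (by lia) (by lia)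
      (by lia) (by lia) (by lia) φ F.q dφ, F.dq, Int.negOnePow_zero, one_smul, map_neg,
      D.assoc (add_zero 0) (add_zero 0) (add_zero 0) (add_zero 0), add_neg_cancel]
  have hφ2 : φ = D.d (-1) 0 (by lia) (D.comp (add_zero (-1)) c F.i₀) +
      D.comp (by lia) w F.i₁ := by
    have e1 := congrArg (fun m => D.comp (add_zero 0) φ m) F.id
    simp only [map_add, D.comp_one] at e1
    rw [← D.assoc (add_zero 0) (add_zero 0) (add_zero 0) (add_zero 0), hc,
      ← D.assoc (p := 0) (q := -1) (r := 1) (pq := -1) (qr := 0) (pqr := 0) (by lia) (by lia)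
        (by lia) (by lia)] at e1
    rw [D.d_comp (p' := 0) (q' := 1) (r' := 0) (by lia) (by lia) (by lia)
      (by lia) (by lia) (by lia) c F.i₀, F.di₀, hw, map_add, LinearMap.add_apply, map_neg,
      Int.negOnePow_zero, one_smul, 
      D.assoc (p := -1) (q := 0) (r := 1) (pq := -1) (qr := 1) (pqr := 0) (by lia) (by lia)
        (by lia) (by lia) c g F.i₁]
    refine e1.symm.trans ?_
    abel
  have hw2 : D.comp (by lia) w F.i₁ = D.d (-1) 0 (by lia)
      (D.comp (r := -1) (by lia) (D.comp (r := -2) (by lia) w h1) F.i₁ -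
        D.comp (add_zero (-1)) (D.comp (add_zero (-1)) w ρ) F.i₀) := by
    have d1 : D.d (-1) 0 (by lia) (D.comp (add_zero (-1)) w ρ) = 0 :=
      comp_closed D _ (by lia) (by lia) (by lia) w ρ dw dρ
    have d2 : D.d (-2) (-1) (by lia) (D.comp (r := -2) (by lia) w h1) =
        D.comp (r := -1) (by lia) w (D.d (-1) 0 (by lia) h1) :=
      d_closed_comp D (by lia) (by lia) (by lia) (by lia) (by lia) w h1 dw
    rw [map_sub, d_comp_closed D (p := -2) (q := 1) (r := -1) (p' := -1) (q' := 2) (r' := 0)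
      (by lia) (by lia) (by lia) (by lia) (by lia) (D.comp (r := -2) (by lia) w h1) F.i₁ F.di₁,
      d2, d_closed_comp D (p := -1) (q := 0) (r := -1) (p' := 0) (q' := 1) (r' := 0)
      (by lia) (by lia) (by lia) (by lia) (by lia) _ F.i₀ d1, F.di₀, map_neg, sub_neg_eq_add,
      Int.negOnePow_one, Units.neg_smul, one_smul]
    have e1 := congrArg (fun m => D.comp (add_zero (-1)) w m) hρg
    simp only [map_add, D.comp_one] at e1
    have e2 : D.comp (by lia) w F.i₁ = D.comp (r := 0) (by lia)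
      (D.comp (add_zero (-1)) w (D.comp (add_zero 0) ρ g)) F.i₁ -
      D.comp (r := 0) (by lia) (D.comp (add_zero (-1)) w (D.d (-1) 0 (by lia) h1)) F.i₁ := by
      rw [e1, map_add, LinearMap.add_apply, add_sub_cancel_right]
    rw [e2, ← D.assoc (p := -1) (q := 0) (r := 0) (pq := -1) (qr := 0) (pqr := -1) (by lia)
      (by lia) (by lia) (by lia) w ρ g,
      D.assoc (p := -1) (q := 0) (r := 1) (pq := -1) (qr := 1) (pqr := 0) (by lia)
      (by lia) (by lia) (by lia) (D.comp (add_zero (-1)) w ρ) g F.i₁]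
    abel
  refine ⟨Y, a, D.comp (add_zero 0) F.j (pw.pr 0), D.comp (add_zero (-1)) c F.i₀ +
    (D.comp (r := -1) (by lia) (D.comp (r := -2) (by lia) w h1) F.i₁ -
        D.comp (add_zero (-1)) (D.comp (add_zero (-1)) w ρ) F.i₀), da, db, ?_, ?_⟩
  · rw [← D.assoc (add_zero 0) (add_zero 0) (add_zero 0) (add_zero 0), haj, hα]
  · rw [map_add, ← hw2, ← hφ2, hφ]
    abel

end Pool.Agent.N99.Cusp
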